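import Pool.Agent.Helper38.FC.Cond

/-!
# FC-B1: the empty configuration is live for some `k`
-/

namespace Pool.Agent.Helper38.FC

open Set Filter Pool.Agent.Helper46.Tuk

variable {Ω : Type} [LinearOrder Ω] [OrderBot Ω] [IsOm1 Ω]
variable {Dc : Cond Ω → Ω → Set ℕ → Prop} {r₀ p : Cond Ω} {k n : ℕ} {t t' : ℕ → Ω}
  {c c' : ℕ → Set ℕ}

theorem BD_zero {γ : Ω} {P : Set ℕ} (h : BD Dc p k 0 t c γ P) : BD Dc p k 0 t' c' γ P := by
  rintro r hr ξ b hξ hb ⟨_, h2⟩
  exact h r hr ξ b hξ hb ⟨fun j hj => absurd hj (Nat.not_lt_zero j), h2⟩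

/-- the states of the construction -/
structure B1S (r₀ : Cond Ω) (Dc : Cond Ω → Ω → Set ℕ → Prop) where
  p : Cond Ω
  n : ℕ
  q : ℕ → Set ℕ
  τ : ℕ → Ω
  Y : Set ℕ
  hp : p ≤ r₀
  hp0 : p.len ≠ ⊥
  hY : InV p Yᶜ
  qY : ∀ i < n, q i ⊆ Y
  lt : ∀ i < n, τ i < p.len
  lg : ∀ i < n, Lg p.T (τ i) (q i)
  disj : ∀ i < n, ∀ j < n, i ≠ j → Disjoint (q i) (q j)
  bd : ∀ i < n, BD Dc p (i + 1) 0 (fun _ => ⊥) (fun _ => ∅) (τ i) (q i)

/-- the steps of the construction -/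
structure B1Sp (s s' : B1S r₀ Dc) : Prop where
  le : s'.p ≤ s.p
  len : s.p.len < s'.p.len
  n : s'.n = s.n + 1
  q : ∀ i < s.n, s'.q i = s.q i
  τ : ∀ i < s.n, s'.τ i = s.τ i
  ge : s.p.len ≤ s'.τ s.n

theorem b1_kill (hcon : ∀ p ≤ r₀, ∀ k, ∃ (t : ℕ → Ω) (c : ℕ → Set ℕ), ¬ LL Dc p k 0 t c)
    (p : Cond Ω) (hp : p ≤ r₀) (k : ℕ) : ∃ q ≤ p, ∀ q₁ ≤ q, ∀ γ, q.len ≤ γ → γ < q₁.len →
      ∀ P, Lg q₁.T γ P → ∃ q₂ ≤ q₁, ∃ P' ⊆ P, Lg q₂.T γ P' ∧
        BD Dc q₂ k 0 (fun _ => ⊥) (fun _ => ∅) γ P' := by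
  obtain ⟨t, c, h⟩ := hcon p hp k
  have h1 : ∃ q ≤ p, ∃ c', Ref q.T 0 t c' c ∧ KK Dc q k 0 t c' := by
    by_contra h2
    push Not at h2
    exact h ⟨fun j hj => absurd hj (Nat.not_lt_zero j), fun j hj => absurd hj (Nat.not_lt_zero j),
      h2⟩
  obtain ⟨q, hq, c', _, hK⟩ := h1
  refine ⟨q, hq, fun q₁ hq₁ γ hγ hγ₁ P hP => ?_⟩
  obtain ⟨q₂, h2, c'', P', _, h3, h4, h5⟩ := hK q₁ hq₁ γ hγ hγ₁ c'
    (Ref.refl fun j hj => absurd hj (Nat.not_lt_zero j)) P hP
  exact ⟨q₂, h2, P', h3, h4, BD_zero h5⟩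

theorem b1_next (hcon : ∀ p ≤ r₀, ∀ k, ∃ (t : ℕ → Ω) (c : ℕ → Set ℕ), ¬ LL Dc p k 0 t c)
    (s : B1S r₀ Dc) : ∃ s', B1Sp s s' := by
  obtain ⟨q, hq, hkill⟩ := b1_kill hcon s.p s.hp (s.n + 1)
  obtain ⟨q₁, hq₁, hlen, hT⟩ := exists_len q q.len
  set γ := q.len with hγ
  have hγs : s.p.len ≤ γ := hq.1
  have hγ0 : γ ≠ ⊥ := fun h => s.hp0 (le_bot_iff.1 (h ▸ hγs))
  -- the complement of `Y` is large
  have h1 : ¬ Lg q₁.T γ s.Y := by
    rw [hT]
    exact ((s.hY.le hq).not_lg le_rfl)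
  have h2 : Lg q₁.T γ s.Yᶜ := by
    have h3 := Lg_univ q₁.wf γ
    rw [← union_compl_self s.Y] at h3
    exact (Lg_union h3).resolve_left h1
  obtain ⟨q₂, hq₂, P, hPY, hP, hPV⟩ := exists_splitC q₁ hlen hγ0 h2
  obtain ⟨q₃, hq₃, P', hP'P, hP', hbd⟩ := hkill q₂ (hq₂.trans hq₁) γ le_rfl
    (hlen.trans_le hq₂.1) P hP
  have hγ3 : γ < q₃.len := (hlen.trans_le hq₂.1).trans_le hq₃.1
  have h31 : q₃ ≤ s.p := hq₃.trans (hq₂.trans (hq₁.trans hq))
  have hdisj : ∀ i < s.n, Disjoint (s.q i) P' := by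
    intro i hi
    rw [Set.disjoint_left]
    intro x hx hx'
    exact hPY (hP'P hx') (s.qY i hi hx)
  refine ⟨⟨q₃, s.n + 1, fun i => if i < s.n then s.q i else P',
    fun i => if i < s.n then s.τ i else γ, s.Y ∪ P', h31.trans s.hp,
    (bot_le.trans_lt hγ3).ne', ?_, ?_, ?_, ?_, ?_, ?_⟩, ?_⟩
  · rw [compl_union]
    exact (s.hY.le h31).inter ((hPV.le hq₃).mono (compl_subset_compl.2 hP'P))
  · intro i hi
    by_cases h : i < s.n
    · simp only [h, if_true]
      exact (s.qY i h).trans subset_union_left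
    · simp only [h, if_false]
      exact subset_union_right
  · intro i hi
    by_cases h : i < s.n
    · simp only [h, if_true]
      exact (s.lt i h).trans_le h31.1
    · simp only [h, if_false]
      exact hγ3
  · intro i hi
    by_cases h : i < s.n
    · simp only [h, if_true]
      exact (Lg_le h31 (s.lt i h) _).2 (s.lg i h)
    · simp only [h, if_false]
      exact hP'
  · intro i hi j hj hij
    by_cases h : i < s.n
    · by_cases h' : j < s.n
      · simp only [h, h', if_true]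
        exact s.disj i h j h' hij
      · simp only [h, h', if_true, if_false]
        exact hdisj i h
    · by_cases h' : j < s.n
      · simp only [h, h', if_true, if_false]
        exact (hdisj j h').symm
      · omega
  · intro i hi
    by_cases h : i < s.n
    · simp only [h, if_true]
      exact (s.bd i h).anti h31 (fun j hj => absurd hj (Nat.not_lt_zero j)) Subset.rfl
    · simp only [h, if_false]
      have hi' : i = s.n := by omega
      subst hi'
      exact hbd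
  · refine ⟨h31, hγs.trans_lt hγ3, rfl, ?_, ?_, ?_⟩
    · intro i hi
      simp only [hi, if_true]
    · intro i hi
      simp only [hi, if_true]
    · simp only [lt_irrefl, if_false]
      exact hγs

theorem exists_LL_zero (hD : IsDc r₀ Dc) :
    ∃ p ≤ r₀, ∃ k, ∀ (t : ℕ → Ω) (c : ℕ → Set ℕ), LL Dc p k 0 t c := by
  by_contra hcon
  push Not at hcon
  obtain ⟨p₀, hp₀, hp₀l, _⟩ := exists_len r₀ (⊥ : Ω)
  choose F hF using b1_next hcon
  let s0 : B1S r₀ Dc := ⟨p₀, 0, fun _ => ∅, fun _ => ⊥, ∅, hp₀, hp₀l.ne',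
    by rw [compl_empty]; exact InV_univ hp₀l.ne',
    fun i hi => absurd hi (Nat.not_lt_zero i), fun i hi => absurd hi (Nat.not_lt_zero i),
    fun i hi => absurd hi (Nat.not_lt_zero i), fun i hi => absurd hi (Nat.not_lt_zero i),
    fun i hi => absurd hi (Nat.not_lt_zero i)⟩
  let r : ℕ → B1S r₀ Dc := fun m => Nat.rec s0 (fun _ s => F s) m
  have hr : ∀ m, B1Sp (r m) (r (m + 1)) := fun m => hF (r m)
  have hn : ∀ m, (r m).n = m := by
    intro m
    induction m with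
    | zero => rfl
    | succ m ih => rw [(hr m).n, ih]
  have hlt : ∀ i m, i < m → i < (r m).n := fun i m h => by
    have := hn m
    omega
  have hq : ∀ i m, i < m → (r m).q i = (r (i + 1)).q i ∧ (r m).τ i = (r (i + 1)).τ i := by
    intro i m hm
    induction m, hm using Nat.le_induction with
    | base => exact ⟨rfl, rfl⟩
    | succ m hm ih =>
      have hi : i < (r m).n := by rw [hn]; exact hm
      exact ⟨((hr m).q i hi).trans ih.1, ((hr m).τ i hi).trans ih.2⟩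
  obtain ⟨w, hw1, hw2, hw3⟩ := exists_limit (fun m => (r m).p) (fun m => (hr m).le)
    (fun m => (hr m).len)
  have hw0 : w.len ≠ ⊥ := (bot_le.trans_lt (hw2 0)).ne'
  have hτ : ∀ i, (r (i + 1)).τ i < (r (i + 1)).p.len := fun i =>
    (r (i + 1)).lt i (hlt i (i + 1) (by omega))
  have hval : Valid w.T w.len (fun i => (r (i + 1)).τ i) (fun i => (r (i + 1)).q i) := by
    refine ⟨?_, ?_, ?_, ?_⟩
    · intro i
      exact (hτ i).trans (hw2 (i + 1))
    · intro γ hγ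
      obtain ⟨m, hm⟩ := hw3 γ hγ
      filter_upwards [Filter.eventually_ge_atTop m] with i hi
      have h1 := (hr i).ge
      rw [hn] at h1
      have h2 : (r m).p.len ≤ (r i).p.len :=
        (antitone_len (r := fun m => (r m).p) (fun m => (hr m).le) hi).1
      exact hm.le.trans (h2.trans h1)
    · intro i j hij
      have h1 : ∀ a b : ℕ, a < b → Disjoint ((r (a + 1)).q a) ((r (b + 1)).q b) := by
        intro a b hab
        rw [← (hq a (b + 1) (by omega)).1]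
        exact (r (b + 1)).disj a (hlt a (b + 1) (by omega)) b (hlt b (b + 1) (by omega)) (by omega)
      rcases lt_or_gt_of_ne hij with h | h
      · exact h1 i j h
      · exact (h1 j i h).symm
    · have : {i | Lg w.T ((r (i + 1)).τ i) ((r (i + 1)).q i)} = Set.univ := by
        ext i
        simp only [mem_ofPred_eq, mem_univ, iff_true]
        exact (Lg_le (hw1 (i + 1)) (hτ i) _).2 ((r (i + 1)).lg i (hlt i (i + 1) (by omega)))
      rw [this]
      exact Set.infinite_univ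
  obtain ⟨v, hv1, hv2, _, hv4⟩ := exists_level w hw0 le_rfl hval
  have hv0 : v ≤ r₀ := hv1.trans ((hw1 0).trans (r 0).hp)
  obtain ⟨u, hu, b, hb⟩ := hD.dense v hv0 w.len hw0
  have h3 := (hD.mem hb).lg w.len
  rw [Lg_iff u.wf hw0] at h3
  obtain ⟨i, hi⟩ := h3.nonempty
  have hTu : u.T w.len = (fun i => (r (i + 1)).τ i, fun i => (r (i + 1)).q i) := by
    rw [T_eq hu hv2, hv4]
  rw [mem_ofPred_eq, hTu] at hi
  have hul : u ≤ (r (i + 1)).p := hu.trans (hv1.trans (hw1 (i + 1)))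
  refine (r (i + 1)).bd i (hlt i (i + 1) (by omega)) u hul w.len b (hw2 (i + 1)).le hb
    ⟨fun j hj => absurd hj (Nat.not_lt_zero j), ?_⟩
  refine Lg_mono ?_ hi
  rintro x ⟨hx1, hx2⟩
  refine ⟨hx2, hx1, fun hx3 => ?_⟩
  simp only [xx, hTu, mem_iUnion, exists_prop] at hx3
  obtain ⟨j, hj, hxj⟩ := hx3
  have hne : i ≠ j := by omega
  exact Set.disjoint_left.1 (hval.disj hne) hx2 hxj

end Pool.Agent.Helper38.FC
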