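import Pool.Agent.Helper38.FC.Cond

/-!
# One more piece of large type for a live configuration (module FC-B2)
-/

set_option autoImplicit false

namespace Pool.Agent.Helper38.FC

open Set Filter Pool.Agent.Helper46.Tuk

variable {Ω : Type} [LinearOrder Ω] [OrderBot Ω] [IsOm1 Ω]
variable {Dc : Cond Ω → Ω → Set ℕ → Prop} {p : Cond Ω} {k n : ℕ} {t : ℕ → Ω} {c : ℕ → Set ℕ}

/-! ## Configurations with one more piece -/

theorem b2_upd_lt {α : Type} {f : ℕ → α} {j : ℕ} (hj : j < n) {a : α} :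
    Function.update f n a j = f j := Function.update_of_ne hj.ne a f

theorem b2_refS {T : Ω → Lev Ω} {γ : Ω} {c c' : ℕ → Set ℕ} {P P' : Set ℕ}
    (h : ∀ j < n, c' j ⊆ c j)
    (h' : ∀ j < n, Lg T (t j) (c' j)) (hP : P' ⊆ P) (hL : Lg T γ P') :
    Ref T (n + 1) (Function.update t n γ) (Function.update c' n P') (Function.update c n P) := by
  refine Ref.of_subset (fun j hj => ?_) (fun j hj => ?_)
  · rcases Nat.lt_succ_iff_lt_or_eq.1 hj with hj | rfl
    · rw [b2_upd_lt hj, b2_upd_lt hj]; exact h' j hj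
    · rw [Function.update_self, Function.update_self]; exact hL
  · rcases Nat.lt_succ_iff_lt_or_eq.1 hj with hj | rfl
    · rw [b2_upd_lt hj, b2_upd_lt hj]; exact h j hj
    · rw [Function.update_self, Function.update_self]; exact hP

theorem b2_sub {c c' : ℕ → Set ℕ} {P P' : Set ℕ} (h : ∀ j < n, c' j ⊆ c j) (hP : P' ⊆ P) :
    ∀ j < n + 1, Function.update c' n P' j ⊆ Function.update c n P j := by
  intro j hj
  rcases Nat.lt_succ_iff_lt_or_eq.1 hj with hj | rfl
  · rw [b2_upd_lt hj, b2_upd_lt hj]; exact h j hj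
  · rw [Function.update_self, Function.update_self]; exact hP

theorem b2_lt {γ δ : Ω} (h : ∀ j < n, t j < δ) (h' : γ < δ) :
    ∀ j < n + 1, Function.update t n γ j < δ := by
  intro j hj
  rcases Nat.lt_succ_iff_lt_or_eq.1 hj with hj | rfl
  · rw [b2_upd_lt hj]; exact h j hj
  · rw [Function.update_self]; exact h'

/-- successively applying `KK` to the configurations `(d, q l)`, `l < i` -/
theorem b2_iter {s : Cond Ω} {γ : Ω} {d : ℕ → Set ℕ} {q : ℕ → Set ℕ} {τ : ℕ → Ω} {i : ℕ}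
    (ht : ∀ j < n, t j < s.len) (hτ : ∀ l < i, τ l < s.len)
    (hK : ∀ l < i, KK Dc s k (n + 1) (Function.update t n (τ l)) (Function.update d n (q l)))
    (hηγ : s.len ≤ γ) (r₀ : Cond Ω) (hr₀ : r₀ ≤ s) (hγ : γ < r₀.len)
    (D₀ : ℕ → Set ℕ) (hD₀ : ∀ j < n, D₀ j ⊆ d j) (hD₀L : ∀ j < n, Lg r₀.T (t j) (D₀ j))
    (hq : ∀ l < i, Lg r₀.T (τ l) (q l)) (P₃ : Set ℕ) (hP₃ : Lg r₀.T γ P₃) :
    ∀ m ≤ i, ∃ r ≤ r₀, ∃ (D : ℕ → Set ℕ) (Q : ℕ → Set ℕ) (P : Set ℕ),
      (∀ j < n, D j ⊆ D₀ j ∧ Lg r.T (t j) (D j)) ∧ (∀ l < i, Q l ⊆ q l ∧ Lg r.T (τ l) (Q l)) ∧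
      P ⊆ P₃ ∧ Lg r.T γ P ∧
      ∀ l < m, BD Dc r k (n + 1) (Function.update t n (τ l)) (Function.update D n (Q l)) γ P := by
  intro m
  induction m with
  | zero =>
    intro _
    exact ⟨r₀, le_rfl, D₀, q, P₃, fun j hj => ⟨Subset.rfl, hD₀L j hj⟩,
      fun l hl => ⟨Subset.rfl, hq l hl⟩, Subset.rfl, hP₃, fun l hl => absurd hl (Nat.not_lt_zero _)⟩
  | succ m ih =>
    intro hm
    obtain ⟨r, hr, D, Q, P, hD, hQ, hP, hPL, hC⟩ := ih (Nat.le_of_succ_le hm)
    have hmi : m < i := hm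
    have href : Ref r.T (n + 1) (Function.update t n (τ m)) (Function.update D n (Q m))
        (Function.update d n (q m)) :=
      b2_refS (fun j hj => (hD j hj).1.trans (hD₀ j hj)) (fun j hj => (hD j hj).2)
        (hQ m hmi).1 (hQ m hmi).2
    obtain ⟨r', hr', c'', P', h1, h2, h3, h4⟩ :=
      hK m hmi r (hr.trans hr₀) γ hηγ (hγ.trans_le hr.1) _ href P hPL
    have hsr : s.len ≤ r.len := (hr.trans hr₀).1
    have h1i := h1.inter
    have hDj : ∀ j < n, Lg r'.T (t j) (c'' j ∩ D j) := by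
      intro j hj
      have := h1i j (Nat.lt_succ_of_lt hj)
      rwa [b2_upd_lt hj, b2_upd_lt hj] at this
    have hQm : Lg r'.T (τ m) (c'' n ∩ Q m) := by
      have := h1i n (Nat.lt_succ_self n)
      rwa [Function.update_self, Function.update_self] at this
    refine ⟨r', hr'.trans hr, fun j => c'' j ∩ D j, Function.update Q m (c'' n ∩ Q m), P',
      fun j hj => ⟨inter_subset_right.trans (hD j hj).1, hDj j hj⟩, ?_, h2.trans hP, h3, ?_⟩
    · intro l hl
      by_cases hlm : l = m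
      · subst hlm
        rw [Function.update_self]
        exact ⟨inter_subset_right.trans (hQ l hl).1, hQm⟩
      · rw [Function.update_of_ne hlm]
        exact ⟨(hQ l hl).1, (Lg_le hr' ((hτ l hl).trans_le hsr) _).2 (hQ l hl).2⟩
    · intro l hl
      by_cases hlm : l = m
      · subst hlm
        rw [Function.update_self]
        refine h4.anti le_rfl (fun j hj => ?_) Subset.rfl
        rcases Nat.lt_succ_iff_lt_or_eq.1 hj with hj | rfl
        · rw [b2_upd_lt hj]; exact inter_subset_left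
        · rw [Function.update_self]; exact inter_subset_left
      · rw [Function.update_of_ne hlm]
        have hlm' : l < m := lt_of_le_of_ne (Nat.lt_succ_iff.1 hl) hlm
        exact (hC l hlm').anti hr' (b2_sub (fun j _ => inter_subset_right) Subset.rfl) h2

/-! ## The states -/

/-- The states of the run in the proof of `top_ext`. -/
structure b2_St (Dc : Cond Ω → Ω → Set ℕ → Prop) (k n : ℕ) (t : ℕ → Ω) (c : ℕ → Set ℕ)
    (p : Cond Ω) : Type where
  i : ℕ
  r : Cond Ω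
  d : ℕ → Set ℕ
  q : ℕ → Set ℕ
  τ : ℕ → Ω
  Y : Set ℕ
  hr : r ≤ p
  hb : r.len ≠ ⊥
  hd : ∀ j < n, d j ⊆ c j ∧ Lg r.T (t j) (d j)
  hτ : ∀ l < i, τ l ≠ ⊥ ∧ τ l < r.len
  hq : ∀ l < i, Lg r.T (τ l) (q l) ∧ q l ⊆ Y
  hK : ∀ l < i, KK Dc r k (n + 1) (Function.update t n (τ l)) (Function.update d n (q l))
  hD : ∀ l l', l < l' → l' < i → BD Dc r k (n + 1) (Function.update t n (τ l))
    (Function.update d n (q l)) (τ l') (q l')
  hY : InV r Yᶜ

/-- The steps of the run in the proof of `top_ext`. -/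
structure b2_Step (s s' : b2_St Dc k n t c p) : Prop where
  i : s'.i = s.i + 1
  r : s'.r ≤ s.r
  len : s.r.len < s'.r.len
  d : ∀ j < n, s'.d j ⊆ s.d j
  q : ∀ l < s.i, s'.q l ⊆ s.q l
  τ : ∀ l < s.i, s'.τ l = s.τ l
  dj : Disjoint (s'.q s.i) s.Y
  Y : s.Y ⊆ s'.Y
  τe : s.r.len ≤ s'.τ s.i

theorem b2_step_exists (h : LL Dc p k n t c)
    (hN : ∀ q ≤ p, ∀ γ, p.len ≤ γ → γ < q.len → ∀ (c' : ℕ → Set ℕ) (P : Set ℕ),
      Ref q.T n t c' c → Lg q.T γ P →
      (∀ r ≤ q, ∀ (c'' : ℕ → Set ℕ) (P' : Set ℕ), Ref r.T n t c'' c' → P' ⊆ P → Lg r.T γ P' →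
        ¬ BD Dc r k n t c'' γ P') →
      ¬ LL Dc q k (n + 1) (Function.update t n γ) (Function.update c' n P))
    (s : b2_St Dc k n t c p) : ∃ s', b2_Step s s' := by
  have hsd : Ref s.r.T n t s.d c :=
    Ref.of_subset (fun j hj => (s.hd j hj).2) fun j hj => (s.hd j hj).1
  have hts : ∀ j < n, t j < s.r.len := fun j hj => (h.lt j hj).trans_le s.hr.1
  have h1 := h.nk s.r s.hr s.d hsd
  unfold KK at h1
  push Not at h1
  obtain ⟨q, hq, γ, hγ, hγq, c', hc', P, hP, hA⟩ := h1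
  have hγb : γ ≠ ⊥ := fun h0 => s.hb (le_bot_iff.1 (h0 ▸ hγ))
  have hYγ : ¬ Lg q.T γ s.Y := by
    obtain ⟨δ, hδ, hδY⟩ := s.hY
    rw [compl_compl] at hδY
    intro h2
    exact hδY ((Lg_le hq hδ _).1 (Lg_of_le q.wf (hδ.le.trans hγ) h2))
  have hPY : Lg q.T γ (P \ s.Y) := by
    have h2 : Lg q.T γ ((P \ s.Y) ∪ s.Y) := by
      refine Lg_mono ?_ hP
      intro x hx
      by_cases hxY : x ∈ s.Y
      · exact Or.inr hxY
      · exact Or.inl ⟨hx, hxY⟩
    exact (Lg_union h2).resolve_right hYγ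
  obtain ⟨q₂, hq₂, P₂, hP₂, hP₂L, hP₂V⟩ := exists_splitC q hγq hγb hPY
  have htq : ∀ j < n, t j < q.len := fun j hj => (hts j hj).trans_le hq.1
  have hc'2 : Ref q₂.T n t c' s.d := (Ref_le hq₂ htq).2 hc'
  have hc'c : Ref q₂.T n t c' c :=
    hc'2.trans ((Ref_le (hq₂.trans hq) hts).2 hsd)
  have hγq₂ : γ < q₂.len := hγq.trans_le hq₂.1
  have h2 := hN q₂ ((hq₂.trans hq).trans s.hr) γ (s.hr.1.trans hγ) hγq₂ c' P₂ hc'c hP₂L
    (fun r hr c'' P' a b d' => hA r (hr.trans hq₂) c'' P' a (b.trans (hP₂.trans sdiff_subset)) d')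
  have h3 : ∀ j < n + 1, Lg q₂.T (Function.update t n γ j) (Function.update c' n P₂ j) := by
    intro j hj
    rcases Nat.lt_succ_iff_lt_or_eq.1 hj with hj | rfl
    · rw [b2_upd_lt hj, b2_upd_lt hj]; exact hc'2.lg j hj
    · rw [Function.update_self, Function.update_self]; exact hP₂L
  have h4 : ∃ q₃ ≤ q₂, ∃ cs, Ref q₃.T (n + 1) (Function.update t n γ) cs
      (Function.update c' n P₂) ∧ KK Dc q₃ k (n + 1) (Function.update t n γ) cs := by
    by_contra hcon
    push Not at hcon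
    exact h2 ⟨b2_lt (fun j hj => (htq j hj).trans_le hq₂.1) hγq₂, h3, fun a b c d => hcon a b c d⟩
  obtain ⟨q₃, hq₃, cs, hcs, hKs⟩ := h4
  have hq₃s : q₃ ≤ s.r := hq₃.trans (hq₂.trans hq)
  have hγq₃ : γ < q₃.len := hγq₂.trans_le hq₃.1
  have hcsj : ∀ j < n, Lg q₃.T (t j) (cs j) ∧ ¬ Lg q₃.T (t j) (cs j \ c' j) := by
    intro j hj
    have a := hcs.lg j (Nat.lt_succ_of_lt hj)
    have b := hcs.sm j (Nat.lt_succ_of_lt hj)
    rw [b2_upd_lt hj] at a
    rw [b2_upd_lt hj, b2_upd_lt hj] at b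
    exact ⟨a, b⟩
  have hcsn : Lg q₃.T γ (cs n ∩ P₂) := by
    have a := hcs.inter n (Nat.lt_succ_self n)
    rwa [Function.update_self, Function.update_self] at a
  have htq₂ : ∀ j < n, t j < q₂.len := fun j hj => (htq j hj).trans_le hq₂.1
  have hD₀L : ∀ j < n, Lg q₃.T (t j) (cs j ∩ s.d j) := fun j hj =>
    Lg_inter_of_diff (hcsj j hj).1 (small_diff_trans (hcsj j hj).2
      (((Ref_le hq₃ htq₂).2 hc'2).sm j hj))
  have hql : ∀ l < s.i, Lg q₃.T (s.τ l) (s.q l) := fun l hl =>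
    (Lg_le hq₃s (s.hτ l hl).2 _).2 (s.hq l hl).1
  obtain ⟨r, hr, D, Q, P', hD, hQ, hP', hP'L, hC⟩ := b2_iter hts (fun l hl => (s.hτ l hl).2)
    s.hK hγ q₃ hq₃s hγq₃ (fun j => cs j ∩ s.d j)
    (fun j _ => inter_subset_right) hD₀L hql _ hcsn s.i le_rfl
  have hP'P₂ : P' ⊆ P₂ := hP'.trans inter_subset_right
  have hP'Y : P' ⊆ P \ s.Y := hP'P₂.trans hP₂
  have hq1 : ∀ l < s.i, Function.update Q s.i P' l = Q l := fun l hl =>
    Function.update_of_ne hl.ne _ _
  have hτ1 : ∀ l < s.i, Function.update s.τ s.i γ l = s.τ l := fun l hl =>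
    Function.update_of_ne hl.ne _ _
  have hrs : r ≤ s.r := hr.trans hq₃s
  have hγr : γ < r.len := hγq₃.trans_le hr.1
  have hlen : s.r.len < r.len := hγ.trans_lt hγr
  have htr : ∀ j < n, t j < r.len := fun j hj => (hts j hj).trans_le hrs.1
  refine ⟨{
    i := s.i + 1
    r := r
    d := D
    q := Function.update Q s.i P'
    τ := Function.update s.τ s.i γ
    Y := s.Y ∪ P'
    hr := hrs.trans s.hr
    hb := (bot_le.trans_lt hlen).ne'
    hd := fun j hj => ⟨(hD j hj).1.trans (inter_subset_right.trans (s.hd j hj).1), (hD j hj).2⟩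
    hτ := ?_
    hq := ?_
    hK := ?_
    hD := ?_
    hY := ?_ }, ?_⟩
  · intro l hl
    rcases Nat.lt_succ_iff_lt_or_eq.1 hl with hl | rfl
    · rw [hτ1 l hl]
      exact ⟨(s.hτ l hl).1, (s.hτ l hl).2.trans hlen⟩
    · rw [Function.update_self]
      exact ⟨hγb, hγr⟩
  · intro l hl
    rcases Nat.lt_succ_iff_lt_or_eq.1 hl with hl | rfl
    · rw [hτ1 l hl, hq1 l hl]
      exact ⟨(hQ l hl).2, (hQ l hl).1.trans ((s.hq l hl).2.trans subset_union_left)⟩
    · rw [Function.update_self, Function.update_self]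
      exact ⟨hP'L, subset_union_right⟩
  · intro l hl
    rcases Nat.lt_succ_iff_lt_or_eq.1 hl with hl | rfl
    · rw [hτ1 l hl, hq1 l hl]
      exact KK.mono (s.hK l hl) hrs (b2_lt htr ((s.hτ l hl).2.trans hlen))
        (b2_refS (fun j hj => (hD j hj).1.trans inter_subset_right) (fun j hj => (hD j hj).2)
          (hQ l hl).1 (hQ l hl).2)
    · rw [Function.update_self, Function.update_self]
      refine KK.mono hKs hr (b2_lt htr hγr) (Ref.of_subset (fun j hj => ?_) (fun j hj => ?_))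
      · rcases Nat.lt_succ_iff_lt_or_eq.1 hj with hj | rfl
        · rw [b2_upd_lt hj, b2_upd_lt hj]; exact (hD j hj).2
        · rw [Function.update_self, Function.update_self]; exact hP'L
      · rcases Nat.lt_succ_iff_lt_or_eq.1 hj with hj | rfl
        · rw [b2_upd_lt hj]; exact (hD j hj).1.trans inter_subset_left
        · rw [Function.update_self]; exact hP'.trans inter_subset_left
  · intro l l' hll' hl'
    rcases Nat.lt_succ_iff_lt_or_eq.1 hl' with hl' | rfl
    · rw [hτ1 l (hll'.trans hl'), hq1 l (hll'.trans hl'), hτ1 l' hl', hq1 l' hl']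
      exact (s.hD l l' hll' hl').anti hrs
        (b2_sub (fun j hj => (hD j hj).1.trans inter_subset_right)
          (hQ l (hll'.trans hl')).1) (hQ l' hl').1
    · rw [hτ1 l hll', hq1 l hll', Function.update_self, Function.update_self]
      exact hC l hll'
  · rw [compl_union]
    exact (s.hY.le hrs).inter ((hP₂V.mono (compl_subset_compl.2 hP'P₂)).le (hr.trans hq₃))
  · exact {
      i := rfl
      r := hrs
      len := hlen
      d := fun j hj => (hD j hj).1.trans inter_subset_right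
      q := fun l hl => by
        change Function.update Q s.i P' l ⊆ s.q l
        rw [hq1 l hl]; exact (hQ l hl).1
      τ := fun l hl => hτ1 l hl
      dj := by
        change Disjoint (Function.update Q s.i P' s.i) s.Y
        rw [Function.update_self]
        exact Set.disjoint_left.2 fun x hx => (hP'Y hx).2
      Y := subset_union_left
      τe := by
        change s.r.len ≤ Function.update s.τ s.i γ s.i
        rw [Function.update_self]; exact hγ }

/-! ## The contradiction at the level of the run -/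

theorem b2_pointed (h : LL Dc p k n t c)
    (hs : ∀ j < n, t j = ⊥ → (c j).Subsingleton)
    (hN : ∀ q ≤ p, ∀ γ, p.len ≤ γ → γ < q.len → ∀ (c' : ℕ → Set ℕ) (P : Set ℕ),
      Ref q.T n t c' c → Lg q.T γ P →
      (∀ r ≤ q, ∀ (c'' : ℕ → Set ℕ) (P' : Set ℕ), Ref r.T n t c'' c' → P' ⊆ P → Lg r.T γ P' →
        ¬ BD Dc r k n t c'' γ P') →
      ¬ LL Dc q k (n + 1) (Function.update t n γ) (Function.update c' n P)) : False := by
  classical
  obtain ⟨p₁, hp₁, hp₁len, -⟩ := exists_len p ⊥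
  have hp₁b : p₁.len ≠ ⊥ := hp₁len.ne'
  let s0 : b2_St Dc k n t c p := {
    i := 0
    r := p₁
    d := c
    q := fun _ => ∅
    τ := fun _ => ⊥
    Y := ∅
    hr := hp₁
    hb := hp₁b
    hd := fun j hj => ⟨Subset.rfl, (Lg_le hp₁ (h.lt j hj) _).2 (h.lg j hj)⟩
    hτ := fun l hl => absurd hl (Nat.not_lt_zero _)
    hq := fun l hl => absurd hl (Nat.not_lt_zero _)
    hK := fun l hl => absurd hl (Nat.not_lt_zero _)
    hD := fun l l' _ hl => absurd hl (Nat.not_lt_zero _)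
    hY := by rw [compl_empty]; exact InV_univ hp₁b }
  choose F hF using b2_step_exists h hN
  let r : ℕ → b2_St Dc k n t c p := fun m => Nat.rec s0 (fun _ s => F s) m
  have hr0 : r 0 = s0 := rfl
  have hstep : ∀ m, b2_Step (r m) (r (m + 1)) := fun m => hF (r m)
  have hri : ∀ m, (r m).i = m := by
    intro m
    induction m with
    | zero => rw [hr0]
    | succ m ih => rw [(hstep m).i, ih]
  have hstep' : ∀ m, (∀ l < m, (r (m + 1)).q l ⊆ (r m).q l) ∧
      (∀ l < m, (r (m + 1)).τ l = (r m).τ l) ∧ Disjoint ((r (m + 1)).q m) (r m).Y ∧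
      (r m).r.len ≤ (r (m + 1)).τ m := by
    intro m
    have h1 := (hstep m).q
    have h2 := (hstep m).τ
    have h3 := (hstep m).dj
    have h4 := (hstep m).τe
    rw [hri m] at h1 h2 h3 h4
    exact ⟨h1, h2, h3, h4⟩
  -- monotonicity
  have hqm : ∀ l m m', l < m → m ≤ m' → (r m').q l ⊆ (r m).q l := by
    intro l m m' hl hm
    induction m', hm using Nat.le_induction with
    | base => exact Subset.rfl
    | succ m' hm ih => exact ((hstep' m').1 l (hl.trans_le hm)).trans ih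
  have hτm : ∀ l m m', l < m → m ≤ m' → (r m').τ l = (r m).τ l := by
    intro l m m' hl hm
    induction m', hm using Nat.le_induction with
    | base => rfl
    | succ m' hm ih => rw [(hstep' m').2.1 l (hl.trans_le hm), ih]
  have hYm : ∀ m m', m ≤ m' → (r m).Y ⊆ (r m').Y := by
    intro m m' hm
    induction m', hm using Nat.le_induction with
    | base => exact Subset.rfl
    | succ m' hm ih => exact ih.trans (hstep m').Y
  have hrm : ∀ m m', m ≤ m' → (r m').r ≤ (r m).r := fun m m' hm =>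
    antitone_len (r := fun m => (r m).r) (fun m => (hstep m).r) hm
  set τ : ℕ → Ω := fun l => (r (l + 1)).τ l with hτdef
  have hτeq : ∀ l m, l < m → (r m).τ l = τ l := fun l m hl =>
    hτm l (l + 1) m (Nat.lt_succ_self l) hl
  have hτb : ∀ l, τ l ≠ ⊥ := fun l => ((r (l + 1)).hτ l (lt_of_lt_of_eq l.lt_succ_self (hri (l + 1)).symm)).1
  have hτl : ∀ l m, l < m → τ l < (r m).r.len := fun l m hl => by
    have := ((r m).hτ l (by rw [hri]; exact hl)).2
    rwa [hτeq l m hl] at this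
  have hqL : ∀ l m, l < m → Lg (r m).r.T (τ l) ((r m).q l) := by
    intro l m hl
    have := ((r m).hq l (by rw [hri]; exact hl)).1
    rwa [hτeq l m hl] at this
  have hqY : ∀ l m, l < m → (r m).q l ⊆ (r m).Y := fun l m hl =>
    ((r m).hq l (by rw [hri]; exact hl)).2
  have htj : ∀ m, ∀ j < n, t j < (r m).r.len := fun m j hj => (h.lt j hj).trans_le (r m).hr.1
  -- the limit condition
  obtain ⟨w, hw1, hw2, hw3⟩ := exists_limit (fun m => (r m).r) (fun m => (hstep m).r)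
    (fun m => (hstep m).len)
  have hw1' : ∀ m, w ≤ (r m).r := hw1
  set δ := w.len with hδdef
  have hδ : δ ≠ ⊥ := (bot_le.trans_lt (hw2 0)).ne'
  have hτδ : ∀ l, τ l < δ := fun l => (hτl l (l + 1) l.lt_succ_self).trans (hw2 (l + 1))
  have hpi : ∀ l, ∃ R' ⊆ (r (l + 1)).q l, Lg w.T (τ l) R' ∧
      ∀ m, ¬ Lg w.T (τ l) (R' \ (r (l + 1 + m)).q l) := by
    intro l
    have := exists_pi w.wf (hτb l) (fun m => (r (l + 1 + m)).q l)
      (fun m => hqm l (l + 1 + m) (l + 1 + (m + 1)) (by omega) (by omega))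
      (fun m => (Lg_le (hw1' (l + 1 + m)) (hτl l (l + 1 + m) (by omega)) _).2
        (hqL l (l + 1 + m) (by omega)))
    simpa using this
  choose Q hQ1 hQ2 hQ3 using hpi
  have hV : Valid w.T δ τ Q := by
    refine ⟨hτδ, ?_, ?_, ?_⟩
    · intro γ hγ
      obtain ⟨m, hm⟩ := hw3 γ hγ
      refine Filter.eventually_atTop.2 ⟨m, fun i hi => ?_⟩
      exact (hm.le.trans (hrm m i hi).1).trans (hstep' i).2.2.2
    · have key : ∀ l l', l < l' → Disjoint (Q l) (Q l') := by
        intro l l' hl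
        have h1 : Q l ⊆ (r l').Y := (hQ1 l).trans ((hqY l (l + 1) l.lt_succ_self).trans
          (hYm (l + 1) l' hl))
        exact (((hstep' l').2.2.1).mono (hQ1 l') h1).symm
      intro l l' hne
      rcases lt_or_gt_of_ne hne with h1 | h1
      · exact key l l' h1
      · exact (key l' l h1).symm
    · have : {i | Lg w.T (τ i) (Q i)} = Set.univ := by
        ext i
        simp only [mem_ofPred_eq, mem_univ, iff_true]
        exact hQ2 i
      rw [this]
      exact Set.infinite_univ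
  obtain ⟨v, hv, hvδ, hvT, hvL⟩ := exists_level w hδ le_rfl hV
  have hvr : ∀ m, v ≤ (r m).r := fun m => hv.trans (hw1' m)
  have hvp : v ≤ p := (hvr 0).trans (r 0).hr
  -- the limit configuration
  obtain ⟨cω, hcω0, hcω⟩ := exists_pi_config v.wf (fun m => (r m).d) (n := n) (t := t)
    (fun m j hj => (hstep m).d j hj)
    (fun m j hj => (Lg_le (hvr m) (htj m j hj) _).2 ((r m).hd j hj).2)
    (fun j hj htj => (hs j hj htj).anti ((r 0).hd j hj).1)
  have hcωc : Ref v.T n t cω c := (hcω 0).trans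
    (Ref.of_subset (fun j hj => (Lg_le (hvr 0) (htj 0 j hj) _).2 ((r 0).hd j hj).2)
      fun j hj => ((r 0).hd j hj).1)
  have h1 := h.nk v hvp cω hcωc
  unfold KK at h1
  push Not at h1
  obtain ⟨q, hq, γ, hγ, hγq, c'', hc'', P, hP, hA⟩ := h1
  have hunc : ¬ BD Dc q k n t c'' γ P := hA q le_rfl c'' P (Ref.refl hc''.lg) Subset.rfl hP
  unfold BD at hunc
  push Not at hunc
  obtain ⟨r', hr', ξ, b, hξ, hb, hξ1, hξ2⟩ := hunc
  have hr'v : r' ≤ v := hr'.trans hq
  have hr'w : r' ≤ w := hr'v.trans hv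
  have hTδ : r'.T δ = (τ, Q) := (T_eq hr'v hvδ).trans hvL
  have hLδ : Lg r'.T δ (P ∩ (b \ xx r'.T ξ k)) := Lg_of_le r'.wf (hvδ.le.trans hγ) hξ2
  rw [Lg_iff r'.wf hδ, hTδ] at hLδ
  obtain ⟨l, hl, -⟩ := hLδ.exists_gt 0
  obtain ⟨l', hl', hll'⟩ := hLδ.exists_gt l
  rw [mem_ofPred_eq] at hl hl'
  have hsmall : ∀ a m, a < m → ¬ Lg r'.T (τ a) (Q a \ (r m).q a) := by
    intro a m ham h3
    have := hQ3 a (m - (a + 1))
    rw [show a + 1 + (m - (a + 1)) = m by omega] at this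
    exact this ((Lg_le hr'w (hτδ a) _).1 h3)
  have hBD := (r (l' + 1)).hD l l' hll' (lt_of_lt_of_eq l'.lt_succ_self (hri (l' + 1)).symm)
  rw [hτeq l (l' + 1) (by omega), hτeq l' (l' + 1) (by omega)] at hBD
  have hξ' : (r (l' + 1)).r.len ≤ ξ := ((hvr (l' + 1)).1.trans hq.1).trans hξ
  refine hBD r' (hr'v.trans (hvr (l' + 1))) ξ b hξ' hb ⟨fun j hj => ?_, ?_⟩
  · rcases Nat.lt_succ_iff_lt_or_eq.1 hj with hj | rfl
    · rw [b2_upd_lt hj, b2_upd_lt hj]
      have htv : t j < v.len := (h.lt j hj).trans_le hvp.1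
      refine Lg_shift (hξ1 j hj) (small_diff_trans (Y := cω j) (fun h3 => ?_) (fun h3 => ?_))
      · exact hc''.sm j hj ((Lg_le hr' (htv.trans_le hq.1) _).1 h3)
      · exact (hcω (l' + 1)).sm j hj ((Lg_le hr'v htv _).1 h3)
    · rw [Function.update_self, Function.update_self]
      refine Lg_shift (X := Q l) (Lg_mono ?_ hl) (hsmall l (l' + 1) (by omega))
      rintro x ⟨⟨_, hx⟩, hx'⟩
      exact ⟨hx', hx.1⟩
  · refine Lg_shift (X := Q l') (Lg_mono ?_ hl') (hsmall l' (l' + 1) (by omega))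
    rintro x ⟨⟨_, hx⟩, hx'⟩
    exact ⟨hx', hx⟩

/-- FC-B2 -/
theorem top_ext (h : LL Dc p k n t c) :
    ∃ q ≤ p, ∃ γ, p.len ≤ γ ∧ γ < q.len ∧ ∃ (c' : ℕ → Set ℕ) (P : Set ℕ), Ref q.T n t c' c ∧
      Lg q.T γ P ∧
      (∀ r ≤ q, ∀ (c'' : ℕ → Set ℕ) (P' : Set ℕ), Ref r.T n t c'' c' → P' ⊆ P → Lg r.T γ P' →
        ¬ BD Dc r k n t c'' γ P') ∧
      LL Dc q k (n + 1) (Function.update t n γ) (Function.update c' n P) := by
  by_contra hcon
  obtain ⟨c₀, hc₀, hc₀L, hc₀s⟩ := exists_pointed h.lg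
  have href : Ref p.T n t c₀ c := Ref.of_subset hc₀L hc₀
  refine b2_pointed (h.mono le_rfl href) hc₀s ?_
  intro q hq γ hγ hγq c' P hc' hP hA hLL
  exact hcon ⟨q, hq, γ, hγ, hγq, c', P, hc'.trans ((Ref_le hq h.lt).2 href), hP, hA, hLL⟩

end Pool.Agent.Helper38.FC
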