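import Pool.Agent.Helper38.FC.Cond
import Pool.Agent.Helper46.Tuk.B3

/-!
# FC-B3: child extensions of live configurations
-/

namespace Pool.Agent.Helper38.FC

open Set Filter Pool.Agent.Helper46.Tuk

variable {Ω : Type} [LinearOrder Ω] [OrderBot Ω] [IsOm1 Ω]
variable {Dc : Cond Ω → Ω → Set ℕ → Prop} {p : Cond Ω} {k n : ℕ} {t : ℕ → Ω} {c : ℕ → Set ℕ}

/-- The fusion lemma with a moving condition. -/
theorem fuseC {T : Ω → Lev Ω} (hT : WfT T) {p₀ : Cond Ω} (hL : ∀ l < n, Lg T (t l) (c l))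
    (hs : ∀ l < n, t l = ⊥ → (c l).Subsingleton) {j : ℕ} (hj : j < n) (htj : t j ≠ ⊥)
    (Φ : Cond Ω → ℕ → (ℕ → Set ℕ) → Set ℕ → Prop)
    (hΦ : ∀ s ≤ p₀, ∀ c' : ℕ → Set ℕ, (∀ l < n, c' l ⊆ c l) → (∀ l < n, Lg T (t l) (c' l)) →
      ∀ m, ∃ s' ≤ s, ∃ i, m ≤ i ∧
      ∃ (c'' : ℕ → Set ℕ) (Q : Set ℕ), (∀ l < n, c'' l ⊆ c' l) ∧ (∀ l < n, Lg T (t l) (c'' l)) ∧
        Q ⊆ c' j ∩ (T (t j)).2 i ∧ Lg T ((T (t j)).1 i) Q ∧ Φ s' i c'' Q) :
    ∃ (w : Cond Ω) (s : ℕ → Cond Ω) (c' : ℕ → Set ℕ) (idx : ℕ → ℕ) (d : ℕ → ℕ → Set ℕ)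
      (Q : ℕ → Set ℕ), w ≤ p₀ ∧ (∀ l, w ≤ s l) ∧ StrictMono idx ∧
      (∀ l, Φ (s l) (idx l) (d l) (Q l)) ∧ (∀ l, Q l ⊆ (T (t j)).2 (idx l)) ∧
      (∀ l, Lg T ((T (t j)).1 (idx l)) (Q l)) ∧ c' j = ⋃ l, Q l ∧
      (∀ l, Ref T n t c' (d l)) ∧ ∀ l < n, c' l ⊆ c l := by
  classical
  -- states: a condition, a configuration, the index used last, and the child chosen last
  let St := {s : Cond Ω × (ℕ → Set ℕ) × ℕ × Set ℕ //
    s.1 ≤ p₀ ∧ (∀ l < n, s.2.1 l ⊆ c l) ∧ ∀ l < n, Lg T (t l) (s.2.1 l)}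
  have step : ∀ s : St, ∃ s' : St, s'.1.1 ≤ s.1.1 ∧ s.1.2.2.1 < s'.1.2.2.1 ∧
      (∀ l < n, s'.1.2.1 l ⊆ s.1.2.1 l) ∧
      s'.1.2.2.2 ⊆ s.1.2.1 j ∩ (T (t j)).2 s'.1.2.2.1 ∧
      Lg T ((T (t j)).1 s'.1.2.2.1) s'.1.2.2.2 ∧ Φ s'.1.1 s'.1.2.2.1 s'.1.2.1 s'.1.2.2.2 := by
    rintro ⟨⟨s, d, i, q⟩, h0, h1, h2⟩
    obtain ⟨s', hs', i', hi', d', q', g1, g2, g3, g4, g5⟩ := hΦ s h0 d h1 h2 (i + 1)
    exact ⟨⟨⟨s', d', i', q'⟩, hs'.trans h0, fun l hl => (g1 l hl).trans (h1 l hl), g2⟩, hs',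
      by simpa using hi', g1, g3, g4, g5⟩
  choose F hF using step
  let s0 : St := ⟨⟨p₀, c, 0, ∅⟩, le_rfl, fun l _ => subset_rfl, hL⟩
  let r : ℕ → St := fun m => Nat.rec s0 (fun _ s => F s) m
  let idx : ℕ → ℕ := fun l => (r (l + 1)).1.2.2.1
  let d : ℕ → ℕ → Set ℕ := fun l => (r (l + 1)).1.2.1
  let Q : ℕ → Set ℕ := fun l => (r (l + 1)).1.2.2.2
  obtain ⟨w, hw, _⟩ := exists_lower (fun m => (r m).1.1) (fun m => (hF (r m)).1)
  have hdec : ∀ l' < n, ∀ a b, a ≤ b → (r b).1.2.1 l' ⊆ (r a).1.2.1 l' := by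
    intro l' hl' a b hab
    have : Antitone fun m => (r m).1.2.1 l' :=
      antitone_nat_of_succ_le fun m => (hF (r m)).2.2.1 l' hl'
    exact this hab
  have hidx : StrictMono idx := strictMono_nat_of_lt_succ fun l => (hF (r (l + 1))).2.1
  have hQ1 : ∀ l, Q l ⊆ (T (t j)).2 (idx l) := fun l =>
    ((hF (r l)).2.2.2.1).trans inter_subset_right
  have hQ2 : ∀ l, Q l ⊆ (r l).1.2.1 j := fun l => ((hF (r l)).2.2.2.1).trans inter_subset_left
  have hQ3 : ∀ l, Lg T ((T (t j)).1 (idx l)) (Q l) := fun l => (hF (r l)).2.2.2.2.1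
  obtain ⟨c₁, hc₁, hc₁'⟩ := exists_pi_config hT (n := n) (t := t) (fun m => (r m).1.2.1)
    (fun m l' hl' => (hF (r m)).2.2.1 l' hl') (fun m l' hl' => (r m).2.2.2 l' hl')
    (fun l' hl' h => hs l' hl' h)
  refine ⟨w, fun l => (r (l + 1)).1.1, Function.update c₁ j (⋃ l, Q l), idx, d, Q, hw 0,
    fun l => hw (l + 1), hidx, fun l => (hF (r l)).2.2.2.2.2, hQ1,
    hQ3, by simp, fun l => ⟨fun p hp => ?_, fun p hp => ?_⟩, fun p hp => ?_⟩
  · by_cases hpj : p = j
    · subst hpj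
      rw [Function.update_self]
      exact Lg_iUnion hT htj hidx hQ1 hQ3
    · rw [Function.update_of_ne hpj]
      exact (hc₁' 0).lg p hp
  · by_cases hpj : p = j
    · subst hpj
      rw [Function.update_self]
      exact small_iUnion_lt hT htj hQ1 (l + 1) subset_rfl
        (fun l' hl' => (hQ2 l').trans (hdec p hj _ _ hl'))
    · rw [Function.update_of_ne hpj]
      exact (hc₁' (l + 1)).sm p hp
  · by_cases hpj : p = j
    · subst hpj
      rw [Function.update_self]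
      exact iUnion_subset fun l => (hQ2 l).trans (hdec p hj _ _ (Nat.zero_le _))
    · rw [Function.update_of_ne hpj]
      exact hc₁ p hp

theorem update_lt {γ δ : Ω} (ht : ∀ j < n, t j < δ) (hγ : γ < δ) :
    ∀ j < n + 1, Function.update t n γ j < δ := by
  intro j hj
  rcases Nat.lt_succ_iff_lt_or_eq.1 hj with h | h
  · rw [Function.update_of_ne h.ne]; exact ht j h
  · subst h; rw [Function.update_self]; exact hγ

/-- if an extended configuration is not live, then a smaller one is killable -/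
theorem exists_KK_of_not_LLC {q : Cond Ω} {γ : Ω} {P : Set ℕ} (ht : ∀ j < n, t j < q.len)
    (hγ : γ < q.len) (hc : ∀ j < n, Lg q.T (t j) (c j)) (hP : Lg q.T γ P)
    (h : ¬ LL Dc q k (n + 1) (Function.update t n γ) (Function.update c n P)) :
    ∃ q' ≤ q, ∃ (c' : ℕ → Set ℕ) (P' : Set ℕ), (∀ j < n, c' j ⊆ c j) ∧
      (∀ j < n, Lg q.T (t j) (c' j)) ∧ P' ⊆ P ∧ Lg q.T γ P' ∧
      KK Dc q' k (n + 1) (Function.update t n γ) (Function.update c' n P') := by
  have ht' := update_lt ht hγ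
  have h1 : ∃ q' ≤ q, ∃ c', Ref q'.T (n + 1) (Function.update t n γ) c' (Function.update c n P) ∧
      KK Dc q' k (n + 1) (Function.update t n γ) c' := by
    by_contra hcon
    push Not at hcon
    exact h ⟨ht', forall_update.2 ⟨hc, hP⟩, hcon⟩
  obtain ⟨q', hq', c', h2, h3⟩ := h1
  have h2' := (Ref_le hq' ht').1 h2
  have hlen : ∀ j < n + 1, Function.update t n γ j < q'.len := fun j hj =>
    (ht' j hj).trans_le hq'.1
  refine ⟨q', hq', fun j => c' j ∩ c j, c' n ∩ P, fun j _ => inter_subset_right, h2'.split.1,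
    inter_subset_right, h2'.split.2, KK.mono h3 le_rfl hlen ((Ref_le hq' ht').2 ?_)⟩
  refine ⟨forall_update.2 ⟨h2'.split.1, h2'.split.2⟩, fun j hj => ?_⟩
  apply sdiff_small_of_subset
  rcases Nat.lt_succ_iff_lt_or_eq.1 hj with h' | h'
  · rw [Function.update_of_ne h'.ne]; exact inter_subset_left
  · subst h'; rw [Function.update_self]; exact inter_subset_left

theorem child_ext (h : LL Dc p k n t c) {j : ℕ} (hj : j < n) (htj : t j ≠ ⊥) (m : ℕ) :
    ∃ q ≤ p, ∃ i, m ≤ i ∧ ∃ (c' : ℕ → Set ℕ) (Q : Set ℕ), (∀ l < n, c' l ⊆ c l) ∧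
      Q ⊆ c j ∩ (p.T (t j)).2 i ∧
      LL Dc q k (n + 1) (Function.update t n ((p.T (t j)).1 i)) (Function.update c' n Q) := by
  by_contra hcon
  push Not at hcon
  obtain ⟨c₀, hc₀, hc₀L, hc₀s⟩ := exists_pointed h.lg
  have hty : ∀ i, (p.T (t j)).1 i < p.len := fun i =>
    ((p.wf (t j) htj).lt i).trans (h.lt j hj)
  -- first fusion
  obtain ⟨w, s, cω, idx, d, Q, hw, hws, hidx, hKK, hQ, hQL, hcj, hRef, hsub⟩ :=
    fuseC p.wf (p₀ := p) hc₀L hc₀s hj htj
      (fun s i c'' Q => KK Dc s k (n + 1) (Function.update t n ((p.T (t j)).1 i))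
        (Function.update c'' n Q)) (by
      intro s hs c' h1 h2 m'
      have h3 := h2 j hj
      rw [Lg_iff p.wf htj] at h3
      obtain ⟨i, hi, him⟩ := h3.exists_gt (max m m')
      have hi' : Lg p.T ((p.T (t j)).1 i) (c' j ∩ (p.T (t j)).2 i) := hi
      have hti : (p.T (t j)).1 i < s.len := (hty i).trans_le hs.1
      have hts : ∀ l < n, t l < s.len := fun l hl => (h.lt l hl).trans_le hs.1
      obtain ⟨q', hq', c'', P', g1, g2, g3, g4, g5⟩ := exists_KK_of_not_LLC hts hti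
        (fun l hl => (Lg_le hs (h.lt l hl) _).2 (h2 l hl)) ((Lg_le hs (hty i) _).2 hi')
        (hcon s hs i ((le_max_left _ _).trans him.le) c' _
          (fun l hl => (h1 l hl).trans (hc₀ l hl))
          (inter_subset_inter_left _ ((h1 j hj).trans (hc₀ j hj))))
      exact ⟨q', hq', i, (le_max_right _ _).trans him.le, c'', P', g1,
        fun l hl => (Lg_le hs (h.lt l hl) _).1 (g2 l hl), g3, (Lg_le hs (hty i) _).1 g4, g5⟩)
  have hRefc : Ref p.T n t cω c :=
    Ref.of_subset (hRef 0).lg fun l hl => (hsub l hl).trans (hc₀ l hl)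
  refine h.nk w hw cω ((Ref_le hw h.lt).2 hRefc) ?_
  intro q hq γ hγ hγq c' hc' P hP
  have hqp : q ≤ p := hq.trans hw
  have htq : ∀ l < n, t l < q.len := fun l hl => (h.lt l hl).trans_le hqp.1
  have hγ0 : γ ≠ ⊥ := ((bot_le.trans_lt (h.lt j hj)).trans_le (hw.1.trans hγ)).ne'
  have hTj : q.T (t j) = p.T (t j) := T_eq hqp (h.lt j hj)
  -- second fusion
  set c₁ : ℕ → Set ℕ := fun l => c' l ∩ cω l with hc₁
  have hc₁L : ∀ l < n, Lg q.T (t l) (c₁ l) := hc'.inter
  have hjn : j ≠ n := hj.ne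
  have htj' : Function.update t n γ j = t j := Function.update_of_ne hjn _ _
  obtain ⟨w₂, s₂, c₂, idx₂, d₂, Q₂, hw₂, hws₂, hidx₂, hD₂, hQ₂, hQL₂, hcj₂, hRef₂, hsub₂⟩ :=
    fuseC q.wf (p₀ := q) (n := n + 1) (t := Function.update t n γ) (c := Function.update c₁ n P)
      (forall_update.2 ⟨hc₁L, hP⟩) (by
        intro l hl
        rcases Nat.lt_succ_iff_lt_or_eq.1 hl with h' | h'
        · rw [Function.update_of_ne h'.ne, Function.update_of_ne h'.ne]
          intro h0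
          exact (hc₀s l h' h0).anti (inter_subset_right.trans (hsub l h'))
        · subst h'; rw [Function.update_self, Function.update_self]
          exact fun h0 => absurd h0 hγ0) (j := j) (by omega) (by rw [htj']; exact htj)
      (fun s i d Q => BD Dc s k (n + 1) (Function.update t n ((p.T (t j)).1 i))
        (Function.update d n Q) γ (d n)) (by
      intro s' hs' e he heL m'
      rw [htj', hTj]
      have heL' : ∀ l < n, Lg q.T (t l) (e l) := by
        intro l hl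
        have := heL l (by omega)
        rwa [Function.update_of_ne hl.ne] at this
      have heN : Lg q.T γ (e n) := by
        have := heL n (by omega)
        rwa [Function.update_self] at this
      have he' : ∀ l < n, e l ⊆ c₁ l := fun l hl => by
        have := he l (by omega)
        rwa [Function.update_of_ne hl.ne] at this
      have h3 := heL' j hj
      rw [Lg_iff q.wf htj, hTj] at h3
      obtain ⟨i, hi, him⟩ := h3.exists_gt m'
      have hi' : Lg q.T ((p.T (t j)).1 i) (e j ∩ (p.T (t j)).2 i) := hi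
      have hsubj : e j ⊆ ⋃ l, Q l := by
        rw [← hcj]; exact (he' j hj).trans inter_subset_right
      obtain ⟨l, hl, hl'⟩ := child_of_mem p.wf htj hidx hQ hsubj ((Lg_le hqp (hty i) _).1 hi')
      have hR1 : Ref q.T n t e (d l) :=
        (Ref.of_subset heL' fun p hp => (he' p hp).trans inter_subset_right).trans
          ((Ref_le hqp h.lt).2 (hRef l))
      have hR2 : Ref q.T (n + 1) (Function.update t n ((p.T (t j)).1 i))
          (Function.update e n (e j ∩ (p.T (t j)).2 i)) (Function.update (d l) n (Q l)) :=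
        hR1.update hi' (sdiff_small_of_subset hl')
      have hK := hKK l
      rw [hl] at hK
      have hlen : ∀ l < n + 1, Function.update t n ((p.T (t j)).1 i) l < q.len :=
        update_lt htq ((hty i).trans_le hqp.1)
      have hs'l : s' ≤ s l := hs'.trans (hq.trans (hws l))
      obtain ⟨s'', hs'', cs, Ps, g1, g2, g3, g4⟩ := hK s' hs'l γ ((hws l).1.trans hγ)
        (hγq.trans_le hs'.1) _ ((Ref_le hs' hlen).2 hR2) (e n) ((Lg_le hs' hγq _).2 heN)
      have hs''q : s'' ≤ q := hs''.trans hs'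
      have g1' := (Ref_le hs''q hlen).1 g1
      refine ⟨s'', hs'', i, him.le, Function.update (fun p => cs p ∩ e p) n Ps,
        cs n ∩ (e j ∩ (p.T (t j)).2 i), ?_, ?_, inter_subset_right, g1'.split.2, ?_⟩
      · intro p hp
        rcases Nat.lt_succ_iff_lt_or_eq.1 hp with h' | h'
        · rw [Function.update_of_ne h'.ne]; exact inter_subset_right
        · subst h'; rw [Function.update_self]; exact g2
      · exact forall_update.2 ⟨g1'.split.1, (Lg_le hs''q hγq _).1 g3⟩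
      · rw [Function.update_idem, Function.update_self]
        refine g4.anti le_rfl ?_ subset_rfl
        intro p hp
        rcases Nat.lt_succ_iff_lt_or_eq.1 hp with h' | h'
        · rw [Function.update_of_ne h'.ne]; exact inter_subset_left
        · subst h'; rw [Function.update_self]; exact inter_subset_left)
  rw [htj', hTj] at hQ₂ hQL₂
  have hsub₂' : ∀ l < n, c₂ l ⊆ c₁ l := fun l hl => by
    have := hsub₂ l (by omega)
    rwa [Function.update_of_ne hl.ne] at this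
  have hlg₂ : ∀ l < n, Lg q.T (t l) (c₂ l) := fun l hl => by
    have := (hRef₂ 0).lg l (by omega)
    rwa [Function.update_of_ne hl.ne] at this
  have hlgn : Lg q.T γ (c₂ n) := by
    have := (hRef₂ 0).lg n (by omega)
    rwa [Function.update_self] at this
  refine ⟨w₂, hw₂, c₂, c₂ n, (Ref_le hw₂ htq).2
    (Ref.of_subset hlg₂ fun l hl => (hsub₂' l hl).trans inter_subset_left), ?_,
    (Lg_le hw₂ hγq _).2 hlgn, ?_⟩
  · have := hsub₂ n (by omega)
    rwa [Function.update_self] at this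
  · rintro r hr ξ b hξ hb ⟨h1, h2⟩
    have hrq : r ≤ q := hr.trans hw₂
    have hrp : r ≤ p := hrq.trans hqp
    have hTr : r.T (t j) = p.T (t j) := T_eq hrp (h.lt j hj)
    have h3 := h1 j hj
    rw [Lg_iff r.wf htj, hTr] at h3
    obtain ⟨i, hi⟩ := h3.nonempty
    have hi' : Lg r.T ((p.T (t j)).1 i) (c₂ j ∩ (p.T (t j)).2 i) :=
      Lg_mono (by rintro x ⟨⟨h1, _⟩, h2⟩; exact ⟨h1, h2⟩) hi
    obtain ⟨l, hl, hl'⟩ := child_of_mem p.wf htj hidx₂ hQ₂ hcj₂.subset
      ((Lg_le hrp (hty i) _).1 hi')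
    have hD := hD₂ l
    refine hD r (hr.trans (hws₂ l)) ξ b ((hws₂ l).1.trans hξ) hb ⟨?_, ?_⟩
    · rw [hl]
      refine (forall_update (p := fun a s => Lg r.T a (s ∩ b))).2 ⟨fun p hp => ?_, ?_⟩
      · have := (hRef₂ l).sm p (by omega)
        rw [Function.update_of_ne hp.ne] at this
        exact Lg_shift (h1 p hp) fun h4 => this ((Lg_le hrq (htq p hp) _).1 h4)
      · refine Lg_mono ?_ hi
        rintro x ⟨⟨h1, h2⟩, h3⟩
        exact ⟨hl' ⟨h1, h3⟩, h2⟩
    · have := (hRef₂ l).sm n (by omega)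
      rw [Function.update_self] at this
      exact Lg_shift h2 fun h4 => this ((Lg_le hrq hγq _).1 h4)

end Pool.Agent.Helper38.FC
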