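import Pool.Agent.Helper38.FC.Sem
import Pool.Agent.Helper46.Tuk.Tukey

/-!
# The Baire space is Tukey below the generic ultrafilter
-/

set_option autoImplicit false

namespace Pool.Agent.Helper38.FC

open Set Pool.Agent.Helper46.Tuk Pool.Agent.Helper33.HM Pool.Agent.Helper33.HM.RO

variable {Ω : Type} [LinearOrder Ω] [OrderBot Ω] [IsOm1 Ω]

theorem tk_notLg {T : Ω → Lev Ω} (hT : WfT T) {one δ : Ω} (h1 : one ≠ ⊥) (hδ : one < δ)
    (g : ℕ → ℕ) : ¬ Lg T δ (tkF T δ g)ᶜ := by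
  have hδ0 : δ ≠ ⊥ := (bot_le.trans_lt hδ).ne'
  intro h
  rw [Lg_iff hT hδ0] at h
  obtain ⟨N, hN⟩ := Filter.eventually_atTop.1 ((hT δ hδ0).cof one hδ)
  obtain ⟨i, hi, hiN⟩ := h.exists_gt N
  rw [mem_ofPred_eq] at hi
  have hti : (T δ).1 i ≠ ⊥ := by
    intro h2
    have h3 := hN i hiN.le
    rw [h2] at h3
    exact h1 (le_bot_iff.1 h3)
  have hinf := infinite_of_Lg hT hti hi
  apply hinf
  have hfin : (⋃ j ∈ Set.Iic i, Set.Iio (g j)).Finite :=
    (Set.finite_Iic i).biUnion fun j _ => Set.finite_Iio (g j)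
  refine hfin.subset ?_
  rintro x ⟨hx, hxi⟩
  simp only [tkF, mem_compl_iff, mem_ofPred_eq, not_forall, not_le] at hx
  obtain ⟨i', hx', j, hj, hlt⟩ := hx
  have hii : i' = i := by
    by_contra hne
    exact Set.disjoint_left.1 ((hT δ hδ0).disj hne) hx' hxi
  subst hii
  exact Set.mem_biUnion (show j ∈ Set.Iic i' from hj) hlt

/-- the graph of a function -/
def gr (f : ℕ → ℕ) : Set (ℕ × ℕ) := {z | z.2 = f z.1}

theorem gr_inj {f g : ℕ → ℕ} (h : gr f = gr g) : f = g := by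
  funext n
  have h1 : (n, f n) ∈ gr f := rfl
  rw [h] at h1
  exact h1

/-- the name of the set attached to the name of a function -/
def FB (δ : Ω) (g : ℕ × ℕ → RO (Cond Ω)) (m : ℕ) : RO (Cond Ω) :=
  gen {r | δ < r.len ∧ ∃ f : ℕ → ℕ, Dcd r g (gr f) ∧ m ∈ tkF r.T δ f}

theorem tkF_eq {p q : Cond Ω} (h : q ≤ p) {δ : Ω} (hδ : δ < p.len) (f : ℕ → ℕ) :
    tkF q.T δ f = tkF p.T δ f := by
  simp only [tkF, T_eq h hδ]

theorem FB_map (δ : Ω) : IsMapName (FB δ) := by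
  have key : ∀ x y : ℕ × ℕ → RO (Cond Ω), ∀ p : Cond Ω, p ∈ eqV x y → ∀ m, ∀ q, q ≤ p →
      q ∈ FB δ x m → q ∈ FB δ y m := by
    intro x y p hp m q hq hqm
    unfold FB at hqm ⊢
    rw [mem_gen] at hqm ⊢
    intro q' hq'
    obtain ⟨r, hr, s, ⟨h1, f, h2, h3⟩, hrs⟩ := hqm q' hq'
    refine ⟨r, hr, r, ⟨h1.trans_le (len_le hrs), f, ?_, ?_⟩, le_rfl⟩
    · exact (h2.le hrs).of_eqV (mem_lower (hr.trans (hq'.trans hq)) hp)
    · rw [tkF_eq hrs h1]
      exact h3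
  intro x y p hp
  rw [mem_eqV]
  refine fun m => ⟨key x y p hp m, key y x p ?_ m⟩
  rw [mem_eqV] at hp ⊢
  exact fun z => ⟨(hp z).2, (hp z).1⟩

/-- a name which is decided to be a graph -/
theorem Dcd_FB {δ : Ω} {q : Cond Ω} (hq : δ < q.len) {x : ℕ × ℕ → RO (Cond Ω)} {f : ℕ → ℕ}
    (h : Dcd q x (gr f)) : Dcd q (FB δ x) (tkF q.T δ f) := by
  constructor
  · intro m hm
    unfold FB
    rw [mem_gen]
    exact fun r hr => ⟨r, le_rfl, q, ⟨hq, f, h, hm⟩, hr⟩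
  · intro m hm r hr hrm
    unfold FB at hrm
    rw [mem_gen] at hrm
    obtain ⟨r', hr', s, ⟨h1, f', h2, h3⟩, hrs⟩ := hrm r le_rfl
    have e : f = f' := gr_inj ((h.le (hr'.trans hr)).uniq (h2.le hrs))
    subst e
    rw [← tkF_eq hrs h1, tkF_eq (hr'.trans hr) hq] at h3
    exact hm h3

/-- names of functions are decided -/
theorem exists_gr {x : ℕ × ℕ → RO (Cond Ω)} {p : Cond Ω} (hp : p ∈ fnV x) (δ : Ω) :
    ∃ q ≤ p, δ < q.len ∧ ∃ f : ℕ → ℕ, Dcd q x (gr f) := by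
  classical
  obtain ⟨q, hq, A, hA⟩ := exists_Dcd p x
  have hq' := mem_lower hq hp
  unfold fnV at hq'
  rw [mem_inf, mem_iInf, mem_iInf] at hq'
  obtain ⟨h1, h2⟩ := hq'
  have hex : ∀ n, ∃ k, (n, k) ∈ A := by
    intro n
    obtain ⟨r, hr, k, hk⟩ := mem_iSup.1 (h1 n) q le_rfl
    exact ⟨k, (hA.mem_iff hr (n, k)).1 hk⟩
  choose f hf using hex
  have e : A = gr f := by
    ext z
    obtain ⟨n, k⟩ := z
    constructor
    · intro hz
      have h3 := mem_iInf.1 (mem_iInf.1 (h2 n) k) (f n)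
      rw [mem_himp] at h3
      have h4 := h3 q le_rfl ⟨hA.pos _ hz, hA.pos _ (hf n)⟩
      exact mem_tv.1 h4
    · intro hz
      have hz' : k = f n := hz
      rw [hz']
      exact hf n
  rw [e] at hA
  obtain ⟨r, hr, h3, _⟩ := exists_len q δ
  exact ⟨r, hr.trans hq, h3, f, hA.le hr⟩

/-- FC-BA -/
theorem baire_UU : tukeyV (fnV (B := RO (Cond Ω))) leF (UU (Ω := Ω)) supV = ⊤ := by
  classical
  obtain ⟨one, h1⟩ := exists_ne_bot (Ω := Ω)
  obtain ⟨δ, hδ⟩ := exists_gt' one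
  have hδ0 : δ ≠ ⊥ := (bot_le.trans_lt hδ).ne'
  apply ext'
  intro p
  refine ⟨fun _ => mem_top p, fun _ => ?_⟩
  unfold tukeyV
  refine mem_iSup.2 fun q _ => ⟨q, le_rfl, FB δ, ?_⟩
  refine mem_iSup.2 fun q' _ => ⟨q', le_rfl, FB_map δ, ?_⟩
  rw [mem_inf]
  constructor
  · rw [mem_iInf]
    intro x
    rw [mem_himp]
    intro r _ hx
    rw [mem_UU]
    intro s hs
    obtain ⟨u, hu, hδu, f, hf⟩ := exists_gr (mem_lower hs hx) δ
    exact ⟨u, hu, tkF u.T δ f, Dcd_FB hδu hf, δ, hδu, tk_notLg u.wf h1 hδ f⟩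
  · rw [mem_iInf]
    intro b
    rw [mem_himp]
    intro r _ hb
    refine mem_iSup.2 fun s hs => ?_
    obtain ⟨u, hu, a, ha, ha'⟩ := mem_UU.1 hb s hs
    obtain ⟨w, hw, hδw, _⟩ := exists_len u δ
    have ha1 := ha.le hw
    have ha2 := ha'.le hw
    have hL := ha2.lg δ
    rw [Lg_iff w.wf hδ0] at hL
    have hex : ∀ n : ℕ, ∃ x, ∃ i, n ≤ i ∧ x ∈ a ∧ x ∈ (w.T δ).2 i := by
      intro n
      obtain ⟨i, hi, hin⟩ := hL.exists_gt n
      rw [mem_ofPred_eq] at hi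
      have hne : (a ∩ (w.T δ).2 i).Nonempty := by
        rw [Set.nonempty_iff_ne_empty]
        intro h
        rw [h] at hi
        exact not_Lg_empty w.T _ hi
      obtain ⟨x, hx1, hx2⟩ := hne
      exact ⟨x, i, hin.le, hx1, hx2⟩
    choose h i hi hB' hQ using hex
    refine ⟨w, hw.trans hu, chk (gr h), ?_⟩
    rw [mem_inf]
    constructor
    · unfold fnV
      rw [mem_inf, mem_iInf, mem_iInf]
      constructor
      · intro n
        refine mem_iSup.2 fun v _ => ⟨v, le_rfl, h n, mem_tv.2 rfl⟩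
      · intro n
        rw [mem_iInf]
        intro k
        rw [mem_iInf]
        intro l
        rw [mem_himp]
        rintro v _ ⟨hk, hl⟩
        have hk' : k = h n := mem_tv.1 hk
        have hl' : l = h n := mem_tv.1 hl
        exact mem_tv.2 (hk'.trans hl'.symm)
    · rw [mem_iInf]
      intro x
      rw [mem_himp]
      intro v hv hvx
      rw [mem_inf] at hvx
      obtain ⟨hv1, hv2⟩ := hvx
      unfold leF
      rw [mem_iInf]
      intro n
      rw [mem_iInf]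
      intro k
      rw [mem_iInf]
      intro l
      rw [mem_himp]
      rintro v' hv' ⟨hk, hl⟩
      have hl' : l = h n := mem_tv.1 hl
      obtain ⟨y, hy, hδy, f, hf⟩ := exists_gr (mem_lower hv' hv1) δ
      have hkf : k = f n := (hf.mem_iff le_rfl (n, k)).1 (mem_lower hy hk)
      have hyw : y ≤ w := hy.trans (hv'.trans hv)
      have hsub : a ⊆ tkF y.T δ f :=
        ((ha1.le hyw).subV_iff (Dcd_FB hδy hf)).1 (mem_lower (hy.trans hv') hv2)
      have h5 : h n ∈ tkF y.T δ f := hsub (hB' n)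
      have h6 : h n ∈ (y.T δ).2 (i n) := by
        rw [T_eq hyw hδw]
        exact hQ n
      have h7 : f n ≤ h n := h5 (i n) h6 n (hi n)
      rw [mem_tv, hkf, hl']
      exact h7

end Pool.Agent.Helper38.FC
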