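import Pool.Agent.Helper46.Tuk.PI
import Pool.Agent.Helper46.Tuk.Tower

/-!
# Countable pieces of towers as forcing conditions
-/

namespace Pool.Agent.Helper38.FC

open Set Filter Pool.Agent.Helper46.Tuk

/-- A condition: a well-formed tower, of which only the levels below `len` count. -/
structure Cond (Ω : Type) [LinearOrder Ω] [OrderBot Ω] [IsOm1 Ω] where
  T : Ω → Lev Ω
  wf : WfT T
  len : Ω

variable {Ω : Type} [LinearOrder Ω] [OrderBot Ω] [IsOm1 Ω]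

/-- `q ≤ p`: the condition `q` extends `p`. -/
instance : Preorder (Cond Ω) where
  le q p := p.len ≤ q.len ∧ ∀ γ < p.len, q.T γ = p.T γ
  le_refl _ := ⟨le_rfl, fun _ _ => rfl⟩
  le_trans _ _ _ h1 h2 :=
    ⟨h2.1.trans h1.1, fun γ hγ => (h1.2 γ (hγ.trans_le h2.1)).trans (h2.2 γ hγ)⟩

theorem le_def {p q : Cond Ω} : q ≤ p ↔ p.len ≤ q.len ∧ ∀ γ < p.len, q.T γ = p.T γ := Iff.rfl

theorem len_le {p q : Cond Ω} (h : q ≤ p) : p.len ≤ q.len := h.1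

theorem T_eq {p q : Cond Ω} (h : q ≤ p) {γ : Ω} (hγ : γ < p.len) : q.T γ = p.T γ := h.2 γ hγ

/-- largeness of a type below the length is decided -/
theorem Lg_le {p q : Cond Ω} (h : q ≤ p) {γ : Ω} (hγ : γ < p.len) (X : Set ℕ) :
    Lg q.T γ X ↔ Lg p.T γ X :=
  Lg_congr (fun _ hβ => h.2 _ (hβ.trans_lt hγ)) X

theorem xx_le {p q : Cond Ω} (h : q ≤ p) {ξ : Ω} (hξ : ξ < p.len) (k : ℕ) :
    xx q.T ξ k = xx p.T ξ k := by
  simp only [xx, h.2 ξ hξ]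

theorem Ref_le {p q : Cond Ω} (h : q ≤ p) {n : ℕ} {t : ℕ → Ω} (ht : ∀ j < n, t j < p.len)
    {c' c : ℕ → Set ℕ} : Ref q.T n t c' c ↔ Ref p.T n t c' c := by
  constructor
  · intro H
    exact ⟨fun j hj => (Lg_le h (ht j hj) _).1 (H.lg j hj),
      fun j hj h' => H.sm j hj ((Lg_le h (ht j hj) _).2 h')⟩
  · intro H
    exact ⟨fun j hj => (Lg_le h (ht j hj) _).2 (H.lg j hj),
      fun j hj h' => H.sm j hj ((Lg_le h (ht j hj) _).1 h')⟩

/-! ## Membership in the generic ultrafilter -/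

/-- `p` forces `X` into the generic ultrafilter (at a level below its length). -/
def InV (p : Cond Ω) (X : Set ℕ) : Prop := ∃ δ < p.len, ¬ Lg p.T δ Xᶜ

theorem InV.le {p q : Cond Ω} {X : Set ℕ} (h : InV p X) (hq : q ≤ p) : InV q X := by
  obtain ⟨δ, h1, h2⟩ := h
  exact ⟨δ, h1.trans_le hq.1, fun h3 => h2 ((Lg_le hq h1 _).1 h3)⟩

theorem InV.mem {p : Cond Ω} {X : Set ℕ} (h : InV p X) : X ∈ VV p.T := by
  obtain ⟨δ, _, h2⟩ := h
  exact ⟨δ, h2⟩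

theorem InV.mono {p : Cond Ω} {X Y : Set ℕ} (h : InV p X) (hXY : X ⊆ Y) : InV p Y := by
  obtain ⟨δ, h1, h2⟩ := h
  exact ⟨δ, h1, fun h3 => h2 (Lg_mono (compl_subset_compl.2 hXY) h3)⟩

theorem InV.inter {p : Cond Ω} {X Y : Set ℕ} (h : InV p X) (h' : InV p Y) :
    InV p (X ∩ Y) := by
  obtain ⟨δ, h1, h2⟩ := h
  obtain ⟨δ', h1', h2'⟩ := h'
  refine ⟨max δ δ', max_lt h1 h1', fun h3 => ?_⟩
  rw [compl_inter] at h3
  rcases Lg_union h3 with h4 | h4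
  · exact h2 (Lg_of_le p.wf (le_max_left _ _) h4)
  · exact h2' (Lg_of_le p.wf (le_max_right _ _) h4)

/-- a set forced into the ultrafilter is large of every type -/
theorem InV.lg {p : Cond Ω} {X : Set ℕ} (h : InV p X) (γ : Ω) : Lg p.T γ X :=
  Lg_of_mem p.wf h.mem γ

theorem InV.not_compl {p : Cond Ω} {X : Set ℕ} (h : InV p X) : ¬ InV p Xᶜ :=
  fun h' => compl_notMem p.wf h.mem h'.mem

theorem InV.not_lg {p : Cond Ω} {X : Set ℕ} (h : InV p Xᶜ) {γ : Ω} (hγ : p.len ≤ γ) :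
    ¬ Lg p.T γ X := by
  obtain ⟨δ, h1, h2⟩ := h
  rw [compl_compl] at h2
  exact fun h3 => h2 (Lg_of_le p.wf (h1.le.trans hγ) h3)

theorem InV_univ {p : Cond Ω} (hp : p.len ≠ ⊥) : InV p Set.univ :=
  ⟨⊥, bot_lt_iff_ne_bot.2 hp, by rw [compl_univ]; exact not_Lg_empty _ _⟩

theorem InV_xx {p : Cond Ω} {ξ : Ω} (hξ : ξ ≠ ⊥) (hp : ξ < p.len) (k : ℕ) :
    InV p (xx p.T ξ k) := by
  refine ⟨ξ, hp, fun h => ?_⟩
  rw [Lg_iff p.wf hξ] at h
  obtain ⟨i, hi, hik⟩ := h.exists_gt k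
  have : (xx p.T ξ k)ᶜ ∩ (p.T ξ).2 i = ∅ := by
    ext x
    simp only [xx, mem_inter_iff, mem_compl_iff, mem_iUnion, not_exists, mem_empty_iff_false,
      iff_false, not_and, exists_prop]
    exact fun h => h i hik.le
  rw [mem_ofPred_eq, this] at hi
  exact not_Lg_empty _ _ hi

/-- a set containing all sets of a level is forced into the ultrafilter -/
theorem InV_of_level {p : Cond Ω} {δ : Ω} (hδ : δ ≠ ⊥) (hp : δ < p.len) {X : Set ℕ}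
    (hX : ∀ i, (p.T δ).2 i ⊆ X) : InV p X := by
  refine ⟨δ, hp, fun h => ?_⟩
  rw [Lg_iff p.wf hδ] at h
  obtain ⟨i, hi⟩ := h.nonempty
  have : Xᶜ ∩ (p.T δ).2 i = ∅ := by
    ext x
    simp only [mem_inter_iff, mem_compl_iff, mem_empty_iff_false, iff_false, not_and]
    exact fun h1 h2 => h1 (hX i h2)
  rw [mem_ofPred_eq, this] at hi
  exact not_Lg_empty _ _ hi

/-! ## Extending conditions -/

/-- changing the levels of a tower from `δ` on, with a prescribed level `δ` -/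
theorem exists_tower_level {T : Ω → Lev Ω} (hT : WfT T) {δ : Ω} (_hδ : δ ≠ ⊥) {t : ℕ → Ω}
    {Q : ℕ → Set ℕ} (hV : Valid T δ t Q) :
    ∃ T' : Ω → Lev Ω, WfT T' ∧ (∀ γ < δ, T' γ = T γ) ∧ T' δ = (t, Q) := by
  obtain ⟨T', hT'⟩ := tw_rec (Ω := Ω) (D := Lev Ω)
    (fun S γ d => (γ < δ → d = T γ) ∧ (γ = δ → d = (t, Q)) ∧
      ((∀ β < δ, β < γ → S β = T β) → (δ < γ → S δ = (t, Q)) →
        (∀ β < γ, β ≠ ⊥ → Valid S β (S β).1 (S β).2) → γ ≠ ⊥ → Valid S γ d.1 d.2))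
    (fun _ => ⊥, fun _ => ∅) (by
      rintro S S' γ d hag ⟨h1, h2, h3⟩
      refine ⟨h1, h2, fun h4 h5 h6 h7 => ?_⟩
      refine tw_valid_congr hag (h3 (fun β hβ hβγ => (hag β hβγ).trans (h4 β hβ hβγ))
        (fun h => (hag δ h).trans (h5 h)) (fun β hβ hβ0 => ?_) h7)
      have := h6 β hβ hβ0
      rw [← hag β hβ] at this
      exact tw_valid_congr (fun β' h => (hag β' (h.trans hβ)).symm) this) (by
      intro S γ hS
      by_cases hγ : γ < δ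
      · refine ⟨T γ, fun _ => rfl, fun h => absurd h hγ.ne, fun h4 _ _ h7 => ?_⟩
        exact tw_valid_congr (fun β hβ => (h4 β (hβ.trans hγ) hβ).symm) (hT γ h7)
      by_cases hγ' : γ = δ
      · subst hγ'
        refine ⟨(t, Q), fun h => absurd h hγ, fun _ => rfl, fun h4 _ _ _ => ?_⟩
        exact tw_valid_congr (fun β hβ => (h4 β hβ hβ).symm) hV
      · by_cases hval : (∀ β < γ, β ≠ ⊥ → Valid S β (S β).1 (S β).2) ∧ γ ≠ ⊥
        · obtain ⟨t', Q', hV'⟩ := tw_default hval.2 hval.1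
          exact ⟨(t', Q'), fun h => absurd h hγ, fun h => absurd h hγ', fun _ _ _ _ => hV'⟩
        · exact ⟨(fun _ => ⊥, fun _ => ∅), fun h => absurd h hγ, fun h => absurd h hγ',
            fun _ _ h6 h7 => absurd ⟨h6, h7⟩ hval⟩)
  have h1 : ∀ γ < δ, T' γ = T γ := fun γ hγ => (hT' γ).1 hγ
  have h2 : T' δ = (t, Q) := (hT' δ).2.1 rfl
  refine ⟨T', fun γ => ?_, h1, h2⟩
  induction γ using WellFoundedLT.induction with
  | ind γ ih =>
    intro hγ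
    exact (hT' γ).2.2 (fun β hβ _ => h1 β hβ) (fun _ => h2) (fun β hβ hβ0 => ih β hβ hβ0) hγ

/-- every condition can be made longer -/
theorem exists_len (p : Cond Ω) (γ : Ω) : ∃ q ≤ p, γ < q.len ∧ q.T = p.T := by
  obtain ⟨γ', hγ'⟩ := exists_gt' γ
  exact ⟨⟨p.T, p.wf, max p.len γ'⟩, ⟨le_max_left _ _, fun _ _ => rfl⟩,
    hγ'.trans_le (le_max_right _ _), rfl⟩

/-- prescribing a level -/
theorem exists_level (p : Cond Ω) {δ : Ω} (hδ : δ ≠ ⊥) (hp : p.len ≤ δ) {t : ℕ → Ω}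
    {Q : ℕ → Set ℕ} (hV : Valid p.T δ t Q) :
    ∃ q ≤ p, δ < q.len ∧ (∀ γ < δ, q.T γ = p.T γ) ∧ q.T δ = (t, Q) := by
  obtain ⟨T', h1, h2, h3⟩ := exists_tower_level p.wf hδ hV
  obtain ⟨δ', hδ'⟩ := exists_gt' δ
  exact ⟨⟨T', h1, δ'⟩, ⟨hp.trans hδ'.le, fun γ hγ => h2 γ (hγ.trans_le hp)⟩, hδ', h2, h3⟩

/-- each set is decided by some extension -/
theorem exists_dec (p : Cond Ω) (X : Set ℕ) : ∃ q ≤ p, InV q X ∨ InV q Xᶜ := by
  obtain ⟨δ, hδ⟩ := exists_gt' p.len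
  have hδ0 : δ ≠ ⊥ := (bot_le.trans_lt hδ).ne'
  obtain ⟨Q', _, hQ2, hQ3⟩ := tw_decide (p.wf δ hδ0) X
  obtain ⟨q, hq, hδq, _, hq2⟩ := exists_level p hδ0 hδ.le hQ2
  refine ⟨q, hq, ?_⟩
  rcases hQ3 with h | h
  · left
    exact InV_of_level hδ0 hδq (fun i => by rw [hq2]; exact h i)
  · right
    exact InV_of_level hδ0 hδq (fun i => by
      rw [hq2]; exact subset_compl_iff_disjoint_right.2 (h i))

/-- a large set has a large subset which is forced out of the ultrafilter -/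
theorem exists_splitC (p : Cond Ω) {γ : Ω} (hγ : γ < p.len) (hγ0 : γ ≠ ⊥) {P : Set ℕ}
    (hP : Lg p.T γ P) : ∃ q ≤ p, ∃ P' ⊆ P, Lg q.T γ P' ∧ InV q P'ᶜ := by
  obtain ⟨P₁, P₂, h1, h2, h3, h4⟩ := exists_split' hγ0 (fun γ _ h => p.wf γ h) hP
  obtain ⟨q, hq, h | h⟩ := exists_dec p P₁
  · refine ⟨q, hq, P₂, subset_union_right.trans h1, (Lg_le hq hγ _).2 h4, h.mono ?_⟩
    exact fun x hx hx' => Set.disjoint_left.1 h2 hx hx'
  · exact ⟨q, hq, P₁, subset_union_left.trans h1, (Lg_le hq hγ _).2 h3, h⟩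

/-! ## Descending sequences -/

theorem antitone_len {r : ℕ → Cond Ω} (hr : ∀ n, r (n + 1) ≤ r n) {m n : ℕ} (h : m ≤ n) :
    r n ≤ r m := by
  induction n, h using Nat.le_induction with
  | base => exact le_refl _
  | succ n _ ih => exact (hr n).trans ih

/-- descending sequences have lower bounds -/
theorem exists_lower (r : ℕ → Cond Ω) (hr : ∀ n, r (n + 1) ≤ r n) :
    ∃ q : Cond Ω, (∀ n, q ≤ r n) ∧ ∀ γ < q.len, ∃ n, γ < (r n).len := by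
  classical
  -- the least upper bound of the lengths
  obtain ⟨a, ha⟩ := exists_gt_seq (fun n => (r n).len)
  have hne : {a : Ω | ∀ n, (r n).len ≤ a}.Nonempty := ⟨a, fun n => (ha n).le⟩
  set δ := (wellFounded_lt (α := Ω)).min {a : Ω | ∀ n, (r n).len ≤ a} hne with hδ
  have hδ1 : ∀ n, (r n).len ≤ δ := (wellFounded_lt (α := Ω)).min_mem _ hne
  have hδ2 : ∀ γ < δ, ∃ n, γ < (r n).len := by
    intro γ hγ
    by_contra hcon
    push Not at hcon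
    have hcon' : γ ∈ {a : Ω | ∀ n, (r n).len ≤ a} := hcon
    exact (wellFounded_lt (α := Ω)).not_lt_min _ hcon' hγ
  obtain ⟨T', hT'⟩ := tw_rec (Ω := Ω) (D := Lev Ω)
    (fun S γ d => (∀ n, γ < (r n).len → d = (r n).T γ) ∧
      ((∀ n, ∀ β < γ, β < (r n).len → S β = (r n).T β) →
        (∀ β < γ, β ≠ ⊥ → Valid S β (S β).1 (S β).2) → γ ≠ ⊥ → Valid S γ d.1 d.2))
    (fun _ => ⊥, fun _ => ∅) (by
      rintro S S' γ d hag ⟨h1, h3⟩
      refine ⟨h1, fun h4 h6 h7 => ?_⟩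
      refine tw_valid_congr hag (h3 (fun n β hβ hβn => (hag β hβ).trans (h4 n β hβ hβn))
        (fun β hβ hβ0 => ?_) h7)
      have := h6 β hβ hβ0
      rw [← hag β hβ] at this
      exact tw_valid_congr (fun β' h => (hag β' (h.trans hβ)).symm) this) (by
      intro S γ hS
      by_cases hγ : ∃ n, γ < (r n).len
      · obtain ⟨n, hn⟩ := hγ
        refine ⟨(r n).T γ, fun m hm => ?_, fun h4 _ h7 => ?_⟩
        · rcases le_total m n with h | h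
          · exact T_eq (antitone_len hr h) hm
          · exact (T_eq (antitone_len hr h) hn).symm
        · exact tw_valid_congr (fun β hβ => (h4 n β hβ (hβ.trans hn)).symm) ((r n).wf γ h7)
      · by_cases hval : (∀ β < γ, β ≠ ⊥ → Valid S β (S β).1 (S β).2) ∧ γ ≠ ⊥
        · obtain ⟨t', Q', hV'⟩ := tw_default hval.2 hval.1
          exact ⟨(t', Q'), fun n hn => absurd ⟨n, hn⟩ hγ, fun _ _ _ => hV'⟩
        · exact ⟨(fun _ => ⊥, fun _ => ∅), fun n hn => absurd ⟨n, hn⟩ hγ,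
            fun _ h6 h7 => absurd ⟨h6, h7⟩ hval⟩)
  have h1 : ∀ n, ∀ γ < (r n).len, T' γ = (r n).T γ := fun n γ hγ => (hT' γ).1 n hγ
  have h2 : WfT T' := by
    intro γ
    induction γ using WellFoundedLT.induction with
    | ind γ ih =>
      intro hγ
      exact (hT' γ).2 (fun n β _ hβn => h1 n β hβn) (fun β hβ hβ0 => ih β hβ hβ0) hγ
  exact ⟨⟨T', h2, δ⟩, fun n => ⟨hδ1 n, h1 n⟩, hδ2⟩

/-- the limit of a sequence of conditions with strictly increasing lengths -/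
theorem exists_limit (r : ℕ → Cond Ω) (hr : ∀ n, r (n + 1) ≤ r n)
    (hlt : ∀ n, (r n).len < (r (n + 1)).len) :
    ∃ q : Cond Ω, (∀ n, q ≤ r n) ∧ (∀ n, (r n).len < q.len) ∧ ∀ γ < q.len, ∃ n, γ < (r n).len := by
  obtain ⟨q, h1, h2⟩ := exists_lower r hr
  exact ⟨q, h1, fun n => (hlt n).trans_le (h1 (n + 1)).1, h2⟩

/-! ## Deciding names, bad sets -/

/-- `Dc r ξ b`: the condition `r` decides that the set attached to `ξ` is `b`. -/
structure IsDc (r₀ : Cond Ω) (Dc : Cond Ω → Ω → Set ℕ → Prop) : Prop where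
  mono : ∀ {r r' : Cond Ω} {ξ : Ω} {b : Set ℕ}, r' ≤ r → Dc r ξ b → Dc r' ξ b
  lt : ∀ {r : Cond Ω} {ξ : Ω} {b : Set ℕ}, Dc r ξ b → ξ < r.len
  mem : ∀ {r : Cond Ω} {ξ : Ω} {b : Set ℕ}, Dc r ξ b → InV r b
  dense : ∀ r ≤ r₀, ∀ ξ : Ω, ξ ≠ ⊥ → ∃ r' ≤ r, ∃ b, Dc r' ξ b

variable (Dc : Cond Ω → Ω → Set ℕ → Prop)

/-- `p` forces that the set of exceptional indices is bounded by the length of `p`. -/
def BD (p : Cond Ω) (k n : ℕ) (t : ℕ → Ω) (c : ℕ → Set ℕ) (γ : Ω) (P : Set ℕ) : Prop :=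
  ∀ r ≤ p, ∀ (ξ : Ω) (b : Set ℕ), p.len ≤ ξ → Dc r ξ b →
    ¬ ((∀ j < n, Lg r.T (t j) (c j ∩ b)) ∧ Lg r.T γ (P ∩ (b \ xx r.T ξ k)))

/-- `p` forces that all refinements of `c` can be killed at all levels from the length of `p` on -/
def KK (p : Cond Ω) (k n : ℕ) (t : ℕ → Ω) (c : ℕ → Set ℕ) : Prop :=
  ∀ q ≤ p, ∀ γ, p.len ≤ γ → γ < q.len → ∀ c', Ref q.T n t c' c → ∀ P, Lg q.T γ P →
    ∃ q' ≤ q, ∃ c'' P', Ref q'.T n t c'' c' ∧ P' ⊆ P ∧ Lg q'.T γ P' ∧ BD Dc q' k n t c'' γ P'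

/-- `p` forces that the configuration `c` is live -/
structure LL (p : Cond Ω) (k n : ℕ) (t : ℕ → Ω) (c : ℕ → Set ℕ) : Prop where
  lt : ∀ j < n, t j < p.len
  lg : ∀ j < n, Lg p.T (t j) (c j)
  nk : ∀ q ≤ p, ∀ c', Ref q.T n t c' c → ¬ KK Dc q k n t c'

variable {Dc} {p q : Cond Ω} {k n : ℕ} {t : ℕ → Ω} {c c' : ℕ → Set ℕ} {γ : Ω} {P P' : Set ℕ}

theorem BD.mono (h : BD Dc p k n t c γ P) (hq : q ≤ p) (ht : ∀ j < n, t j < q.len)
    (hγ : γ < q.len) (hc : ∀ j < n, ¬ Lg q.T (t j) (c' j \ c j)) (hP : ¬ Lg q.T γ (P' \ P)) :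
    BD Dc q k n t c' γ P' := by
  rintro r hr ξ b hξ hb ⟨h1, h2⟩
  refine h r (hr.trans hq) ξ b (hq.1.trans hξ) hb ⟨fun j hj => ?_, ?_⟩
  · exact Lg_shift (h1 j hj) fun h3 => hc j hj ((Lg_le hr (ht j hj) _).1 h3)
  · exact Lg_shift h2 fun h3 => hP ((Lg_le hr hγ _).1 h3)

/-- version for subsets -/
theorem BD.anti (h : BD Dc p k n t c γ P) (hq : q ≤ p) (hc : ∀ j < n, c' j ⊆ c j)
    (hP : P' ⊆ P) : BD Dc q k n t c' γ P' := by
  rintro r hr ξ b hξ hb ⟨h1, h2⟩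
  exact h r (hr.trans hq) ξ b (hq.1.trans hξ) hb
    ⟨fun j hj => Lg_mono (inter_subset_inter_left _ (hc j hj)) (h1 j hj),
      Lg_mono (inter_subset_inter_left _ hP) h2⟩

theorem KK.mono (h : KK Dc p k n t c) (hq : q ≤ p) (ht : ∀ j < n, t j < q.len)
    (hc : Ref q.T n t c' c) : KK Dc q k n t c' := by
  intro q₁ hq₁ γ hγ hγ₁ c₁ hc₁ P hP
  exact h q₁ (hq₁.trans hq) γ (hq.1.trans hγ) hγ₁ c₁ (hc₁.trans ((Ref_le hq₁ ht).2 hc)) P hP

theorem LL.mono (h : LL Dc p k n t c) (hq : q ≤ p) (hc : Ref q.T n t c' c) :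
    LL Dc q k n t c' := by
  have ht : ∀ j < n, t j < q.len := fun j hj => (h.lt j hj).trans_le hq.1
  exact ⟨ht, hc.lg, fun q₁ hq₁ c₁ hc₁ => h.nk q₁ (hq₁.trans hq) c₁
    (hc₁.trans ((Ref_le hq₁ ht).2 hc))⟩

end Pool.Agent.Helper38.FC
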