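import Pool.Agent.Helper73.TK.Core
import Pool.Agent.Helper73.TK.Frozen

/-!
Assuming Jensen's principle Diamond there is an ultrafilter U on the natural numbers with
omega^omega Tukey below U and U strictly Tukey below its Fubini square. The conclusion is the
frozen statement S15159, word for word.
-/

set_option autoImplicit false

namespace Pool.Agent.Helper38.FC.DiamondExistence

open Set Ordinal Cardinal

/-- Closed unbounded subsets of the first uncountable ordinal. -/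
def IsClub (C : Set Ordinal.{0}) : Prop :=
  (∀ a ∈ C, a < ω₁) ∧ (∀ a < ω₁, ∃ b ∈ C, a < b) ∧
    ∀ d < ω₁, d ≠ 0 → (∀ a < d, ∃ b ∈ C, a < b ∧ b < d) → d ∈ C

/-- Jensen's Diamond: there are sets `S d` such that for every set `A` of ordinals and every closed
unbounded subset `C` of the first uncountable ordinal there is `d ∈ C` with `A ∩ d = S d`. -/
def Diamond : Prop :=
  ∃ S : Ordinal.{0} → Set Ordinal.{0}, ∀ A C : Set Ordinal.{0}, IsClub C →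
    ∃ d ∈ C, A ∩ Set.Iio d = S d

/-- Diamond implies that there is an ultrafilter `U` on `ℕ` with `ω^ω ≤_T U <_T U·U`. -/
theorem result (hD : Diamond) :
    ∃ U : Ultrafilter ℕ,
    (∃ f : (ℕ → ℕ) → Set ℕ, (∀ g, f g ∈ U) ∧
        ∀ B ∈ U, ∃ h : ℕ → ℕ, ∀ g, B ⊆ f g → g ≤ h) ∧
    (∃ f : Set ℕ → Set (ℕ × ℕ),
        (∀ A ∈ U, {n | {m | (n, m) ∈ f A} ∈ U} ∈ U) ∧
        ∀ B : Set (ℕ × ℕ), {n | {m | (n, m) ∈ B} ∈ U} ∈ U →
          ∃ C ∈ U, ∀ A ∈ U, B ⊆ f A → C ⊆ A) ∧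
    ¬ (∃ f : Set (ℕ × ℕ) → Set ℕ,
        (∀ A : Set (ℕ × ℕ), {n | {m | (n, m) ∈ A} ∈ U} ∈ U → f A ∈ U) ∧
        ∀ B ∈ U, ∃ C : Set (ℕ × ℕ), {n | {m | (n, m) ∈ C} ∈ U} ∈ U ∧
          ∀ A : Set (ℕ × ℕ), {n | {m | (n, m) ∈ A} ∈ U} ∈ U → B ⊆ f A → C ⊆ A) := by
  obtain ⟨U, h1, h2, h3⟩ := Pool.Agent.Helper73.TK.main hD
  exact ⟨U, Pool.Agent.Helper73.TK.explicit h1 h2 h3⟩

end Pool.Agent.Helper38.FC.DiamondExistence
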