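import Pool.Agent.Helper38.FC.Sem

/-!
# The Fubini square of the generic ultrafilter is not Tukey below it
-/

set_option autoImplicit false

namespace Pool.Agent.Helper38.FC

open Set Filter Pool.Agent.Helper46.Tuk Pool.Agent.Helper33.HM Pool.Agent.Helper33.HM.RO

variable {Ω : Type} [LinearOrder Ω] [OrderBot Ω] [IsOm1 Ω]

/-- the name of the set of the pairs `(n, m)` with `m` in the `n`-th tail of level `ξ` -/
def noPP (ξ : Ω) (x : ℕ × ℕ) : RO (Cond Ω) := gen {r | ξ < r.len ∧ x.2 ∈ xx r.T ξ x.1}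

theorem noPP_Dcd {p : Cond Ω} {ξ : Ω} (hξ : ξ < p.len) (n : ℕ) :
    Dcd p (fun m => noPP ξ (n, m)) (xx p.T ξ n) := by
  constructor
  · intro m hm
    show p ∈ gen _
    rw [mem_gen]
    intro q hq
    exact ⟨q, le_rfl, q, ⟨hξ.trans_le (len_le hq), by rw [xx_le hq hξ]; exact hm⟩, le_rfl⟩
  · intro m hm q hq h
    have h' : q ∈ gen {r : Cond Ω | ξ < r.len ∧ m ∈ xx r.T ξ n} := h
    rw [mem_gen] at h'
    obtain ⟨r, hr, a, ⟨ha1, ha2⟩, hra⟩ := h' q le_rfl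
    apply hm
    rw [← xx_le (hr.trans hq) hξ, xx_le hra ha1]
    exact ha2

theorem noPP_sq {ξ : Ω} (hξ : ξ ≠ ⊥) (p : Cond Ω) : p ∈ sqV UU (noPP ξ) := by
  apply mem_reg
  intro q _
  obtain ⟨r, hr, hlen, _⟩ := exists_len q ξ
  refine ⟨r, hr, ?_⟩
  show r ∈ UU _
  refine UU_of (a := Set.univ) ⟨fun n _ => ?_, fun n hn => absurd (mem_univ n) hn⟩
    (InV_univ (bot_le.trans_lt hlen).ne')
  exact UU_of (noPP_Dcd hlen n) (InV_xx hξ hlen n)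

theorem not_sq_le_UU
    (hstar : ∀ (r₀ : Cond Ω) (Dc : Cond Ω → Ω → Set ℕ → Prop), IsDc r₀ Dc →
      ∃ r ≤ r₀, ∃ (k : ℕ) (S : Set (Ω × Set ℕ)), (∀ x ∈ S, x.1 ≠ ⊥ ∧ Dc r x.1 x.2) ∧
        InV r (⋂ x ∈ S, x.2) ∧ InV r (⋂ x ∈ S, xx r.T x.1 k)ᶜ) :
    tukeyV (sqV (UU (Ω := Ω))) supV UU supV = ⊥ := by
  by_contra hne
  obtain ⟨p, hp⟩ := ne_bot_iff.1 hne
  obtain ⟨p₁, hp₁, F, hF⟩ := mem_iSup.1 hp p le_rfl
  obtain ⟨r₀, hr₀, hmap, hF⟩ := mem_iSup.1 hF p₁ le_rfl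
  obtain ⟨H1, H2⟩ := hF
  have H1' : ∀ x, r₀ ∈ (sqV UU x ⇨ UU (F x)) := mem_iInf.1 H1
  have H2' := fun b => mem_iInf.1 H2 b
  -- the decided values
  let Dc : Cond Ω → Ω → Set ℕ → Prop := fun r ξ b =>
    r ≤ r₀ ∧ ξ < r.len ∧ ξ ≠ ⊥ ∧ Dcd r (F (noPP ξ)) b ∧ InV r b
  have hDc : IsDc r₀ Dc := by
    refine ⟨?_, ?_, ?_, ?_⟩
    · rintro r r' ξ b h ⟨h1, h2, h3, h4, h5⟩
      exact ⟨h.trans h1, h2.trans_le (len_le h), h3, h4.le h, h5.le h⟩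
    · rintro r ξ b ⟨_, h2, _⟩
      exact h2
    · rintro r ξ b ⟨_, _, _, _, h5⟩
      exact h5
    · intro r hr ξ hξ
      have h1 : r ∈ UU (F (noPP ξ)) := (mem_himp.1 (H1' (noPP ξ))) r hr (noPP_sq hξ r)
      obtain ⟨q, hq, a, ha⟩ := exists_Dcd r (F (noPP ξ))
      obtain ⟨r₁, hr₁, hin⟩ := UU_InV (mem_lower hq h1) ha q le_rfl
      obtain ⟨r₂, hr₂, hlen, _⟩ := exists_len r₁ ξ
      exact ⟨r₂, (hr₂.trans hr₁).trans hq, a, ((hr₂.trans hr₁).trans hq).trans hr, hlen, hξ,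
        ha.le (hr₂.trans hr₁), hin.le hr₂⟩
  obtain ⟨r, hr, k, S, hS, hin, hout⟩ := hstar r₀ Dc hDc
  have hX : r ∈ UU (chk (⋂ x ∈ S, x.2)) := UU_of Dcd_chk hin
  have h2 := (mem_himp.1 (H2' (chk (⋂ x ∈ S, x.2)))) r hr hX
  obtain ⟨r₁, hr₁, c, hc1, hc2⟩ := mem_iSup.1 h2 r le_rfl
  have hsub : ∀ x ∈ S, ∀ a, ∀ q, q ≤ r₁ → q ∈ c a → q ∈ noPP x.1 a := by
    intro x hx
    obtain ⟨hx0, hxD⟩ := hS x hx
    have h3 := mem_iInf.1 hc2 (noPP x.1)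
    have h3' : r₁ ∈ supV (F (noPP x.1)) (chk (⋂ x ∈ S, x.2)) :=
      (Dcd.subV_iff (Dcd_chk (a := ⋂ x ∈ S, x.2)) (hxD.2.2.2.1.le hr₁)).2
        (biInter_subset_of_mem hx)
    have h4 := (mem_himp.1 h3) r₁ le_rfl ⟨noPP_sq hx0 r₁, h3'⟩
    have h5 : r₁ ∈ Pool.Agent.Helper38.FC.subV c (noPP x.1) := h4
    rw [mem_subV] at h5
    exact h5
  have hc1' : r₁ ∈ UU (fun n => UU (fun m => c (n, m))) := hc1
  obtain ⟨r₂, hr₂, a, ha, hina⟩ := mem_UU.1 hc1' r₁ le_rfl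
  obtain ⟨n, hn, hkn⟩ : ∃ n ∈ a, k ≤ n := by
    have hδ : r₂.len ≠ ⊥ := by
      obtain ⟨δ, h1, _⟩ := hina
      exact (bot_le.trans_lt h1).ne'
    have hinf := infinite_of_Lg r₂.wf hδ (hina.lg r₂.len)
    obtain ⟨n, hn, hkn⟩ := hinf.exists_gt k
    exact ⟨n, hn, hkn.le⟩
  have h6 : r₂ ∈ UU (fun m => c (n, m)) := ha.pos n hn
  obtain ⟨r₃, hr₃, a', ha', hina'⟩ := mem_UU.1 h6 r₂ le_rfl
  have hle : r₃ ≤ r := (hr₃.trans hr₂).trans hr₁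
  have hsub2 : a' ⊆ ⋂ x ∈ S, xx r.T x.1 k := by
    intro m hm
    rw [mem_iInter₂]
    intro x hx
    have hxl : x.1 < r.len := (hS x hx).2.2.1
    have h7 : r₃ ∈ c (n, m) := ha'.pos m hm
    have h8 := hsub x hx (n, m) r₃ (hr₃.trans hr₂) h7
    have h9 := ((noPP_Dcd (hxl.trans_le (len_le hle)) n).mem_iff le_rfl m).1 h8
    rw [xx_le hle hxl] at h9
    simp only [xx, mem_iUnion, exists_prop] at h9 ⊢
    obtain ⟨i, hi, him⟩ := h9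
    exact ⟨i, hkn.trans hi, him⟩
  exact (hina'.mono hsub2).not_compl (hout.le hle)

end Pool.Agent.Helper38.FC
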