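import Pool.Agent.Helper38.FC.Cond

/-!
# A copy of `ω₁` and a tower
-/

namespace Pool.Agent.Helper38.FC

open Set Filter Pool.Agent.Helper46.Tuk

theorem exists_om : ∃ (Ω : Type) (_ : LinearOrder Ω) (_ : OrderBot Ω), IsOm1 Ω := by
  classical
  have ho : (Cardinal.aleph 1).ord = Ordinal.omega 1 := Cardinal.ord_aleph 1
  have hne : (Cardinal.aleph 1).ord ≠ 0 := by
    rw [ho]; exact (Ordinal.omega_pos 1).ne'
  haveI : Nonempty (Cardinal.aleph 1).ord.ToType := Ordinal.nonempty_toType_iff.2 hne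
  letI : OrderBot (Cardinal.aleph 1).ord.ToType :=
    WellFoundedLT.toOrderBot (Cardinal.aleph 1).ord.ToType
  refine ⟨(Cardinal.aleph 1).ord.ToType, inferInstance, inferInstance, ?_⟩
  exact
    { wf := inferInstance
      ctbl := by
        intro a
        have h1 : Cardinal.mk (Set.Iio a) < Cardinal.mk (Cardinal.aleph 1).ord.ToType :=
          Cardinal.mk_Iio_lt a (by rw [Cardinal.mk_ord_toType, Ordinal.type_toType])
        have h2 : Cardinal.mk (Set.Iio a) ≤ Cardinal.aleph0 := by
          have h3 : Cardinal.mk (Cardinal.aleph 1).ord.ToType = Order.succ Cardinal.aleph0 := by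
            rw [Cardinal.mk_ord_toType, Cardinal.succ_aleph0]
          rw [h3] at h1
          exact Order.lt_succ_iff.mp h1
        exact Set.countable_coe_iff.mp (Cardinal.mk_le_aleph0_iff.mp h2)
      unctbl := by
        intro hc
        have h1 : Cardinal.mk (Cardinal.aleph 1).ord.ToType ≤ Cardinal.aleph0 := by
          rw [← Cardinal.mk_univ]
          exact hc.le_aleph0
        rw [Cardinal.mk_ord_toType] at h1
        have h2 : Cardinal.aleph0 < Cardinal.aleph 1 := by
          rw [← Cardinal.aleph_zero]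
          exact Cardinal.aleph_lt_aleph.2 zero_lt_one
        exact absurd h1 (not_le.2 h2) }

variable (Ω : Type) [LinearOrder Ω] [OrderBot Ω] [IsOm1 Ω]

theorem nonempty_Cond : Nonempty (Cond Ω) := by
  obtain ⟨T', hT'⟩ := tw_rec (Ω := Ω) (D := Lev Ω)
    (fun S γ d => (∀ β < γ, β ≠ ⊥ → Valid S β (S β).1 (S β).2) → γ ≠ ⊥ → Valid S γ d.1 d.2)
    (fun _ => ⊥, fun _ => ∅) (by
      rintro S S' γ d hag h3 h6 h7
      refine tw_valid_congr hag (h3 (fun β hβ hβ0 => ?_) h7)
      have := h6 β hβ hβ0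
      rw [← hag β hβ] at this
      exact tw_valid_congr (fun β' h => (hag β' (h.trans hβ)).symm) this) (by
      intro S γ _
      by_cases hval : (∀ β < γ, β ≠ ⊥ → Valid S β (S β).1 (S β).2) ∧ γ ≠ ⊥
      · obtain ⟨t', Q', hV'⟩ := tw_default hval.2 hval.1
        exact ⟨(t', Q'), fun _ _ => hV'⟩
      · exact ⟨(fun _ => ⊥, fun _ => ∅), fun h6 h7 => absurd ⟨h6, h7⟩ hval⟩)
  have h2 : WfT T' := by
    intro γ
    induction γ using WellFoundedLT.induction with
    | ind γ ih =>
      intro hγ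
      exact hT' γ (fun β hβ hβ0 => ih β hβ hβ0) hγ
  exact ⟨⟨T', h2, ⊥⟩⟩

end Pool.Agent.Helper38.FC
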