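import Pool.Agent.Helper38.FC.Val

/-! Project FC, module FC-PR: the value of the sentence in `Prop`. -/

set_option autoImplicit false

namespace Pool.Agent.Helper38.FC

section pr

variable {α β : Type}

theorem pr_tv (p : Prop) : (tv p : Prop) ↔ p := by
  simp [tv]

theorem pr_eqV (x y : α → Prop) : eqV x y ↔ x = y := by
  have h : eqV x y ↔ ∀ a, (x a → y a) ∧ (y a → x a) := by
    simp [eqV]
  rw [h]
  constructor
  · intro h
    funext a
    exact propext ⟨(h a).1, (h a).2⟩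
  · rintro rfl a
    exact ⟨id, id⟩

theorem pr_subV (x y : α → Prop) : subV x y ↔ ∀ a, x a → y a := by
  simp [subV]

theorem pr_supV (x y : α → Prop) : supV x y ↔ ∀ a, y a → x a := by
  rw [supV, pr_subV]

theorem pr_isSetName (E : (α → Prop) → Prop) : IsSetName E := by
  rintro x y ⟨h1, h2⟩
  rw [pr_eqV] at h1
  subst h1
  exact h2

theorem pr_isMapName (F : (α → Prop) → (β → Prop)) : IsMapName F := by
  intro x y h
  rw [pr_eqV] at h
  subst h
  exact (pr_eqV _ _).2 rfl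

theorem pr_fnV (g : ℕ × ℕ → Prop) :
    fnV g ↔ (∀ n, ∃ k, g (n, k)) ∧ ∀ n k l, g (n, k) → g (n, l) → k = l := by
  simp [fnV, pr_tv]

theorem pr_leF (g h : ℕ × ℕ → Prop) :
    leF g h ↔ ∀ n k l, g (n, k) → h (n, l) → k ≤ l := by
  simp [leF, pr_tv]

theorem pr_tukeyV (D : (α → Prop) → Prop) (leD : (α → Prop) → (α → Prop) → Prop)
    (E : (β → Prop) → Prop) (leE : (β → Prop) → (β → Prop) → Prop) :
    tukeyV D leD E leE ↔ ∃ F : (α → Prop) → (β → Prop), (∀ x, D x → E (F x)) ∧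
      ∀ b, E b → ∃ c, D c ∧ ∀ x, D x → leE (F x) b → leD x c := by
  simp [tukeyV, pr_isMapName]

theorem pr_ultraV (U : (ℕ → Prop) → Prop) :
    ultraV U ↔ U (fun _ => True) ∧ ¬ U (fun _ => False) ∧ (∀ x y, U x → subV x y → U y) ∧
      (∀ x y, U x → U y → U (fun n => x n ∧ y n)) ∧ ∀ x, U x ∨ U (fun n => ¬ x n) := by
  simp [ultraV, and_assoc]

/-- families with `ultraV` are ultrafilters -/
theorem pr_exists_ult (U : (ℕ → Prop) → Prop) (h : ultraV U) :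
    ∃ V : Ultrafilter ℕ, ∀ x : ℕ → Prop, U x ↔ {n | x n} ∈ V := by
  rw [pr_ultraV] at h
  obtain ⟨h1, h2, h3, h4, h5⟩ := h
  have hsub : ∀ x y : ℕ → Prop, U x → (∀ n, x n → y n) → U y := fun x y hx hxy =>
    h3 x y hx ((pr_subV x y).2 hxy)
  let f : Filter ℕ :=
    { sets := {s | U (fun n => n ∈ s)}
      univ_sets := h1
      sets_of_superset := fun {x y} hx hxy => hsub _ _ hx fun n hn => hxy hn
      inter_sets := fun {x y} hx hy => h4 _ _ hx hy }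
  have hf : ∀ s : Set ℕ, s ∈ f ↔ U (fun n => n ∈ s) := fun s => Iff.rfl
  refine ⟨Ultrafilter.ofComplNotMemIff f ?_, fun x => Iff.rfl⟩
  intro s
  rw [hf, hf]
  constructor
  · intro h
    rcases h5 (fun n => n ∈ s) with h' | h'
    · exact h'
    · exact absurd h' h
  · intro h h'
    exact h2 (hsub _ _ (h4 _ _ h h') fun n hn => hn.2 hn.1)

theorem pr_ult_ultraV (V : Ultrafilter ℕ) : ultraV (fun x : ℕ → Prop => {n | x n} ∈ V) := by
  rw [pr_ultraV]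
  refine ⟨?_, ?_, ?_, ?_, ?_⟩
  · have : {n : ℕ | True} = Set.univ := by ext; simp
    rw [this]
    exact Filter.univ_mem
  · have : {n : ℕ | False} = ∅ := by ext; simp
    rw [this]
    exact V.empty_notMem
  · intro x y hx hxy
    rw [pr_subV] at hxy
    exact Filter.mem_of_superset hx hxy
  · intro x y hx hy
    exact Filter.inter_mem hx hy
  · intro x
    exact (V.mem_or_compl_mem {n | x n})

/-- the first reduction -/
theorem pr_T1 (U : (ℕ → Prop) → Prop) (V : Ultrafilter ℕ) (hU : ∀ x, U x ↔ {n | x n} ∈ V) :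
    tukeyV fnV leF U supV ↔ ∃ f : (ℕ → ℕ) → Set ℕ, (∀ g, f g ∈ V) ∧
        ∀ B ∈ V, ∃ h : ℕ → ℕ, ∀ g, B ⊆ f g → g ≤ h := by
  rw [pr_tukeyV]
  have hg : ∀ g : ℕ → ℕ, fnV (fun x : ℕ × ℕ => x.2 = g x.1) := by
    intro g
    rw [pr_fnV]
    exact ⟨fun n => ⟨g n, rfl⟩, fun n k l h1 h2 => h1.trans h2.symm⟩
  constructor
  · rintro ⟨F, hF, hb⟩
    refine ⟨fun g => {n | F (fun x : ℕ × ℕ => x.2 = g x.1) n}, fun g => (hU _).1 (hF _ (hg g)),
      fun B hB => ?_⟩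
    obtain ⟨c, hc, hc2⟩ := hb (fun n => n ∈ B) ((hU _).2 hB)
    rw [pr_fnV] at hc
    choose h hh using hc.1
    refine ⟨h, fun g hBg n => ?_⟩
    have h1 := hc2 _ (hg g) ((pr_supV _ _).2 fun n hn => hBg hn)
    rw [pr_leF] at h1
    exact h1 n (g n) (h n) rfl (hh n)
  · rintro ⟨f, hf, hb⟩
    classical
    refine ⟨fun x n => ∀ g : ℕ → ℕ, x = (fun y : ℕ × ℕ => y.2 = g y.1) → n ∈ f g, ?_, ?_⟩
    · intro x hx
      rw [pr_fnV] at hx
      choose g hgx using hx.1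
      have hxg : x = fun y : ℕ × ℕ => y.2 = g y.1 := by
        funext y
        apply propext
        constructor
        · intro hy
          exact hx.2 y.1 y.2 (g y.1) hy (hgx y.1)
        · intro hy
          have := hgx y.1
          rw [← hy] at this
          exact this
      rw [hU]
      refine Filter.mem_of_superset (hf g) fun n hn g' hg' => ?_
      have : g = g' := by
        rw [hxg] at hg'
        funext n
        have h1 := congrFun hg' (n, g n)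
        simp only [eq_iff_iff, true_iff] at h1
        exact h1
      rwa [← this]
    · intro b hbU
      obtain ⟨h, hh⟩ := hb {n | b n} ((hU _).1 hbU)
      refine ⟨_, hg h, fun x hx hxb => ?_⟩
      rw [pr_fnV] at hx
      choose g hgx using hx.1
      have hxg : x = fun y : ℕ × ℕ => y.2 = g y.1 := by
        funext y
        apply propext
        constructor
        · intro hy
          exact hx.2 y.1 y.2 (g y.1) hy (hgx y.1)
        · intro hy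
          have := hgx y.1
          rw [← hy] at this
          exact this
      rw [pr_supV] at hxb
      have h2 := hh g fun n hn => hxb n hn g hxg
      rw [pr_leF]
      intro n k l hk hl
      rw [hxg] at hk
      simp only at hk hl
      rw [hk, hl]
      exact h2 n

/-- the second reduction -/
theorem pr_T2 (U : (ℕ → Prop) → Prop) (V : Ultrafilter ℕ) (hU : ∀ x, U x ↔ {n | x n} ∈ V) :
    tukeyV U supV (sqV U) supV ↔ ∃ f : Set ℕ → Set (ℕ × ℕ),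
        (∀ A ∈ V, {n | {m | (n, m) ∈ f A} ∈ V} ∈ V) ∧
        ∀ B : Set (ℕ × ℕ), {n | {m | (n, m) ∈ B} ∈ V} ∈ V →
          ∃ C ∈ V, ∀ A ∈ V, B ⊆ f A → C ⊆ A := by
  have e : U = fun x => {n | x n} ∈ V := funext fun x => propext (hU x)
  subst e
  rw [pr_tukeyV]
  constructor
  · rintro ⟨F, hF, hb⟩
    refine ⟨fun A => {y | F (fun n => n ∈ A) y}, fun A hA => hF _ hA, fun B hB => ?_⟩
    obtain ⟨c, hc, hc2⟩ := hb (fun y => y ∈ B) hB
    refine ⟨{n | c n}, hc, fun A hA hBA => ?_⟩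
    have h1 := hc2 (fun n => n ∈ A) hA ((pr_supV _ _).2 fun y hy => hBA hy)
    rw [pr_supV] at h1
    exact h1
  · rintro ⟨f, hf, hb⟩
    refine ⟨fun x y => y ∈ f {n | x n}, fun x hx => hf _ hx, fun b hbU => ?_⟩
    obtain ⟨C, hC, hC2⟩ := hb {y | b y} hbU
    refine ⟨fun n => n ∈ C, hC, fun x hx hxb => ?_⟩
    rw [pr_supV] at hxb
    have h1 := hC2 {n | x n} hx fun y hy => hxb y hy
    rw [pr_supV]
    exact h1

/-- the third reduction -/
theorem pr_T3 (U : (ℕ → Prop) → Prop) (V : Ultrafilter ℕ) (hU : ∀ x, U x ↔ {n | x n} ∈ V) :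
    tukeyV (sqV U) supV U supV ↔ ∃ f : Set (ℕ × ℕ) → Set ℕ,
        (∀ A : Set (ℕ × ℕ), {n | {m | (n, m) ∈ A} ∈ V} ∈ V → f A ∈ V) ∧
        ∀ B ∈ V, ∃ C : Set (ℕ × ℕ), {n | {m | (n, m) ∈ C} ∈ V} ∈ V ∧
          ∀ A : Set (ℕ × ℕ), {n | {m | (n, m) ∈ A} ∈ V} ∈ V → B ⊆ f A → C ⊆ A := by
  have e : U = fun x => {n | x n} ∈ V := funext fun x => propext (hU x)
  subst e
  rw [pr_tukeyV]
  constructor
  · rintro ⟨F, hF, hb⟩
    refine ⟨fun A => {y | F (fun n => n ∈ A) y}, fun A hA => hF _ hA, fun B hB => ?_⟩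
    obtain ⟨c, hc, hc2⟩ := hb (fun y => y ∈ B) hB
    refine ⟨{n | c n}, hc, fun A hA hBA => ?_⟩
    have h1 := hc2 (fun n => n ∈ A) hA ((pr_supV _ _).2 fun y hy => hBA hy)
    rw [pr_supV] at h1
    exact h1
  · rintro ⟨f, hf, hb⟩
    refine ⟨fun x y => y ∈ f {n | x n}, fun x hx => hf _ hx, fun b hbU => ?_⟩
    obtain ⟨C, hC, hC2⟩ := hb {y | b y} hbU
    refine ⟨fun n => n ∈ C, hC, fun x hx hxb => ?_⟩
    rw [pr_supV] at hxb
    have h1 := hC2 {n | x n} hx fun y hy => hxb y hy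
    rw [pr_supV]
    exact h1

end pr

/-- FC-PR -/
theorem val_prop : Val Prop ↔ ∃ U : Ultrafilter ℕ,
    (∃ f : (ℕ → ℕ) → Set ℕ, (∀ g, f g ∈ U) ∧
        ∀ B ∈ U, ∃ h : ℕ → ℕ, ∀ g, B ⊆ f g → g ≤ h) ∧
    (∃ f : Set ℕ → Set (ℕ × ℕ),
        (∀ A ∈ U, {n | {m | (n, m) ∈ f A} ∈ U} ∈ U) ∧
        ∀ B : Set (ℕ × ℕ), {n | {m | (n, m) ∈ B} ∈ U} ∈ U →
          ∃ C ∈ U, ∀ A ∈ U, B ⊆ f A → C ⊆ A) ∧
    ¬ (∃ f : Set (ℕ × ℕ) → Set ℕ,
        (∀ A : Set (ℕ × ℕ), {n | {m | (n, m) ∈ A} ∈ U} ∈ U → f A ∈ U) ∧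
        ∀ B ∈ U, ∃ C : Set (ℕ × ℕ), {n | {m | (n, m) ∈ C} ∈ U} ∈ U ∧
          ∀ A : Set (ℕ × ℕ), {n | {m | (n, m) ∈ A} ∈ U} ∈ U → B ⊆ f A → C ⊆ A) := by
  have h0 : Val Prop ↔ ∃ U : (ℕ → Prop) → Prop, ((ultraV U ∧ tukeyV fnV leF U supV) ∧
      tukeyV U supV (sqV U) supV) ∧ ¬ tukeyV (sqV U) supV U supV := by
    simp [Val, pr_isSetName]
  rw [h0]
  constructor
  · rintro ⟨U, ⟨⟨h1, h2⟩, h3⟩, h4⟩
    obtain ⟨V, hV⟩ := pr_exists_ult U h1
    exact ⟨V, (pr_T1 U V hV).1 h2, (pr_T2 U V hV).1 h3, fun h => h4 ((pr_T3 U V hV).2 h)⟩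
  · rintro ⟨V, h2, h3, h4⟩
    have hV : ∀ x : ℕ → Prop, (fun x : ℕ → Prop => {n | x n} ∈ V) x ↔ {n | x n} ∈ V :=
      fun x => Iff.rfl
    exact ⟨fun x => {n | x n} ∈ V, ⟨⟨pr_ult_ultraV V, (pr_T1 _ V hV).2 h2⟩, (pr_T2 _ V hV).2 h3⟩,
      fun h => h4 ((pr_T3 _ V hV).1 h)⟩

end Pool.Agent.Helper38.FC
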