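import Pool.Agent.Helper38.FC.Sem

/-!
# The generic ultrafilter is Tukey below its square
-/

set_option autoImplicit false

namespace Pool.Agent.Helper38.FC

open Set Pool.Agent.Helper46.Tuk Pool.Agent.Helper33.HM Pool.Agent.Helper33.HM.RO

variable {Ω : Type} [LinearOrder Ω] [OrderBot Ω] [IsOm1 Ω]

theorem InV.nonempty {p : Cond Ω} {X : Set ℕ} (h : InV p X) : X.Nonempty := by
  by_contra h'
  rw [Set.not_nonempty_iff_eq_empty] at h'
  subst h'
  exact not_Lg_empty _ _ (h.lg ⊥)

/-- If all values of `y` are below `b`, so is the value of `y ∈ U`. -/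
theorem UU_le_of_le {p : Cond Ω} {y : ℕ → RO (Cond Ω)} {b : RO (Cond Ω)}
    (h : ∀ m, ∀ q, q ≤ p → q ∈ y m → q ∈ b) (hy : p ∈ UU y) : p ∈ b := by
  apply mem_reg
  intro q hq
  obtain ⟨r, hr, a, h1, h2⟩ := mem_UU.1 hy q hq
  obtain ⟨m, hm⟩ := h2.nonempty
  exact ⟨r, hr, h m r (hr.trans hq) (h1.pos m hm)⟩

theorem UU_const (b : RO (Cond Ω)) : UU (fun _ => b) = b := by
  apply ext'
  intro p
  constructor
  · exact UU_le_of_le fun _ _ _ h => h
  · intro hp
    rw [mem_UU]
    intro q hq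
    obtain ⟨r, hr, h1, _⟩ := exists_len q ⊥
    refine ⟨r, hr, Set.univ, ⟨fun _ _ => mem_lower (hr.trans hq) hp,
      fun n hn => absurd (Set.mem_univ n) hn⟩, InV_univ (bot_lt_iff_ne_bot.1 h1)⟩

/-- FC-SQ -/
theorem le_sq_UU : tukeyV (UU (Ω := Ω)) supV (sqV UU) supV = ⊤ := by
  apply ext'
  intro p
  refine ⟨fun _ => mem_top p, fun _ => ?_⟩
  unfold tukeyV
  refine mem_iSup.2 fun q _ => ⟨q, le_rfl, fun x z => x z.1, ?_⟩
  refine mem_iSup.2 fun q' _ => ⟨q', le_rfl, ?_, ?_⟩
  · intro x y r hr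
    rw [mem_eqV] at hr ⊢
    exact fun z => hr z.1
  · rw [mem_inf]
    constructor
    · rw [mem_iInf]
      intro x
      rw [mem_himp]
      intro r _ hx
      have e : (fun n => UU (fun _ : ℕ => x n)) = x := funext fun n => UU_const (x n)
      show r ∈ UU (fun n => UU (fun _ : ℕ => x n))
      rw [e]
      exact hx
    · rw [mem_iInf]
      intro b
      rw [mem_himp]
      intro r _ hb
      rw [mem_iSup]
      intro s hs
      refine ⟨s, le_rfl, fun n => UU (fun m => b (n, m)), ?_⟩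
      rw [mem_inf]
      refine ⟨mem_lower hs hb, ?_⟩
      rw [mem_iInf]
      intro x
      rw [mem_himp]
      intro s' _ hx
      rw [mem_inf, mem_supV] at hx
      rw [mem_supV]
      intro n u hu hun
      refine UU_le_of_le (fun m v hv hvm => ?_) hun
      exact hx.2 (n, m) v (hv.trans hu) hvm

end Pool.Agent.Helper38.FC
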