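import Pool.Agent.Helper38.FC.Sem

/-!
# Project FC, module FC-U: the generic name is an ultrafilter
-/

set_option autoImplicit false

namespace Pool.Agent.Helper38.FC

open Set Filter Pool.Agent.Helper46.Tuk Pool.Agent.Helper33.HM Pool.Agent.Helper33.HM.RO

variable {Ω : Type} [LinearOrder Ω] [OrderBot Ω] [IsOm1 Ω]

/-- FC-U: the name of the generic ultrafilter is an ultrafilter. -/
theorem ultraV_UU : ultraV (UU (Ω := Ω)) = ⊤ := by
  refine ext' fun p => ⟨fun _ => mem_top p, fun _ => ?_⟩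
  unfold ultraV
  refine mem_inf.2 ⟨mem_inf.2 ⟨mem_inf.2 ⟨mem_inf.2 ⟨?_, ?_⟩, ?_⟩, ?_⟩, ?_⟩
  · refine mem_UU.2 fun q _ => ?_
    obtain ⟨r, hr, hr1, _⟩ := exists_len q ⊥
    refine ⟨r, hr, Set.univ, ⟨fun n _ => mem_top r, fun n hn => absurd (mem_univ n) hn⟩,
      InV_univ hr1.ne'⟩
  · rw [RO.mem_compl]
    intro q _ hq
    obtain ⟨r, _, a, h1, h2⟩ := mem_UU.1 hq q le_rfl
    have ha : a = ∅ := eq_empty_iff_forall_notMem.2 fun n hn => not_mem_bot r (h1.pos n hn)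
    subst ha
    exact not_Lg_empty _ _ (h2.lg ⊥)
  · rw [RO.mem_iInf]
    intro x
    rw [RO.mem_iInf]
    intro y
    rw [RO.mem_himp]
    intro q _ hq
    rw [RO.mem_inf] at hq
    refine mem_UU.2 fun q' hq' => ?_
    obtain ⟨r, hr, a, h1, h2⟩ := mem_UU.1 hq.1 q' hq'
    obtain ⟨s, hs, b, h3⟩ := exists_Dcd r y
    have h4 : a ⊆ b := ((h1.le hs).subV_iff h3).1 (mem_lower (hs.trans (hr.trans hq')) hq.2)
    exact ⟨s, hs.trans hr, b, h3, (h2.le hs).mono h4⟩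
  · rw [RO.mem_iInf]
    intro x
    rw [RO.mem_iInf]
    intro y
    rw [RO.mem_himp]
    intro q _ hq
    rw [RO.mem_inf] at hq
    refine mem_UU.2 fun q' hq' => ?_
    obtain ⟨r, hr, a, h1, h2⟩ := mem_UU.1 hq.1 q' hq'
    obtain ⟨s, hs, b, h3, h4⟩ := mem_UU.1 hq.2 r (hr.trans hq')
    refine ⟨s, hs.trans hr, a ∩ b, ⟨fun n hn => ?_, fun n hn s' hs' hs'' => ?_⟩,
      (h2.le hs).inter h4⟩
    · exact mem_inf.2 ⟨mem_lower hs (h1.pos n hn.1), h3.pos n hn.2⟩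
    · rw [RO.mem_inf] at hs''
      exact hn ⟨(h1.mem_iff (hs'.trans hs) n).1 hs''.1, (h3.mem_iff hs' n).1 hs''.2⟩
  · rw [RO.mem_iInf]
    intro x
    rw [RO.mem_sup]
    intro q _
    obtain ⟨r, hr, a, h1⟩ := exists_Dcd q x
    obtain ⟨s, hs, h2 | h2⟩ := exists_dec r a
    · exact ⟨s, hs.trans hr, Or.inl (UU_of (h1.le hs) h2)⟩
    · refine ⟨s, hs.trans hr, Or.inr (UU_of ⟨fun n hn => ?_, fun n hn s' hs' hs'' => ?_⟩ h2)⟩
      · rw [RO.mem_compl]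
        exact fun s' hs' h => h1.neg n hn s' (hs'.trans hs) h
      · rw [RO.mem_compl] at hs''
        exact hs'' s' le_rfl (mem_lower (hs'.trans hs) (h1.pos n (notMem_compl_iff.1 hn)))

end Pool.Agent.Helper38.FC
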