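import Pool.Agent.Helper5.FC.Final
import Pool.Agent.Helper38.FC.B2
import Pool.Agent.Helper38.FC.B3
import Pool.Agent.Helper38.FC.Ultra
import Pool.Agent.Helper38.FC.Baire
import Pool.Agent.Helper38.FC.Sq
import Pool.Agent.Helper38.FC.No
import Pool.Agent.Helper38.FC.PropVal
import Pool.Agent.Helper38.FC.Om

/-!
# The value of the sentence in the algebra of the tower forcing
-/

set_option autoImplicit false

namespace Pool.Agent.Helper38.FC

open Set Filter Pool.Agent.Helper46.Tuk Pool.Agent.Helper33.HM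

section

variable {Ω : Type} [LinearOrder Ω] [OrderBot Ω] [IsOm1 Ω]

/-- the combinatorial theorem -/
theorem star (r₀ : Cond Ω) (Dc : Cond Ω → Ω → Set ℕ → Prop) (hD : IsDc r₀ Dc) :
    ∃ r ≤ r₀, ∃ (k : ℕ) (S : Set (Ω × Set ℕ)), (∀ x ∈ S, x.1 ≠ ⊥ ∧ Dc r x.1 x.2) ∧
      InV r (⋂ x ∈ S, x.2) ∧ InV r (⋂ x ∈ S, xx r.T x.1 k)ᶜ :=
  star_of hD (fun h => top_ext h) (fun h _ hj htj m => child_ext h hj htj m)

theorem val_RO : Val (RO (Cond Ω)) = ⊤ := by
  refine le_antisymm le_top ?_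
  unfold Val
  refine le_iSup₂_of_le (UU (Ω := Ω)) UU_isSetName ?_
  rw [ultraV_UU, baire_UU, le_sq_UU, not_sq_le_UU star]
  simp

end

theorem exists_algebra : ∃ (B : Type) (_ : CompleteBooleanAlgebra B), (⊥ : B) ≠ ⊤ ∧ Val B = ⊤ := by
  obtain ⟨Ω, i1, i2, i3⟩ := exists_om
  letI := i1
  letI := i2
  haveI := i3
  refine ⟨RO (Cond Ω), inferInstance, ?_, val_RO⟩
  obtain ⟨p⟩ := nonempty_Cond Ω
  intro h
  have h1 : p ∈ (⊤ : RO (Cond Ω)) := RO.mem_top p
  rw [← h] at h1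
  exact RO.not_mem_bot p h1

end Pool.Agent.Helper38.FC
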