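import Pool.Agent.Helper38.FC.Val
import Pool.Agent.Helper38.FC.Cond
import Pool.Agent.Helper33.HM.RO

/-!
# Names over the tower forcing
-/

set_option autoImplicit false

namespace Pool.Agent.Helper38.FC

open Set Pool.Agent.Helper46.Tuk Pool.Agent.Helper33.HM Pool.Agent.Helper33.HM.RO

section General

variable {P : Type} [Preorder P] {α β : Type}

theorem mem_tv {p : P} {a : Prop} : p ∈ (tv a : RO P) ↔ a := by
  unfold tv
  rw [mem_iSup]
  constructor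
  · intro h
    obtain ⟨r, _, ha, _⟩ := h p le_rfl
    exact ha
  · intro ha q _
    exact ⟨q, le_rfl, ha, mem_top q⟩

theorem mem_subV {p : P} {x y : α → RO P} :
    p ∈ Pool.Agent.Helper38.FC.subV x y ↔ ∀ a, ∀ q, q ≤ p → q ∈ x a → q ∈ y a := by
  unfold Pool.Agent.Helper38.FC.subV
  rw [mem_iInf]
  rfl

theorem mem_supV {p : P} {x y : α → RO P} :
    p ∈ supV x y ↔ ∀ a, ∀ q, q ≤ p → q ∈ y a → q ∈ x a := mem_subV

theorem mem_eqV {p : P} {x y : α → RO P} :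
    p ∈ eqV x y ↔ ∀ a, (∀ q, q ≤ p → q ∈ x a → q ∈ y a) ∧ ∀ q, q ≤ p → q ∈ y a → q ∈ x a := by
  unfold eqV
  rw [mem_iInf]
  rfl

/-- `p` decides that the set named by `x` is `a`. -/
structure Dcd (p : P) (x : α → RO P) (a : Set α) : Prop where
  pos : ∀ n ∈ a, p ∈ x n
  neg : ∀ n, n ∉ a → ∀ q, q ≤ p → ¬ q ∈ x n

theorem Dcd.le {p q : P} {x : α → RO P} {a : Set α} (h : Dcd p x a) (hq : q ≤ p) : Dcd q x a :=
  ⟨fun n hn => mem_lower hq (h.pos n hn), fun n hn r hr => h.neg n hn r (hr.trans hq)⟩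

theorem Dcd.mem_iff {p q : P} {x : α → RO P} {a : Set α} (h : Dcd p x a) (hq : q ≤ p) (n : α) :
    q ∈ x n ↔ n ∈ a := by
  constructor
  · intro hn
    by_contra h'
    exact h.neg n h' q hq hn
  · intro hn
    exact mem_lower hq (h.pos n hn)

theorem Dcd.uniq {p : P} {x : α → RO P} {a b : Set α} (h : Dcd p x a) (h' : Dcd p x b) :
    a = b := by
  ext n
  rw [← h.mem_iff le_rfl n, ← h'.mem_iff le_rfl n]

theorem Dcd.of_eqV {p : P} {x y : α → RO P} {a : Set α} (h : Dcd p x a) (hxy : p ∈ eqV x y) :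
    Dcd p y a := by
  rw [mem_eqV] at hxy
  exact ⟨fun n hn => (hxy n).1 p le_rfl (h.pos n hn),
    fun n hn q hq hq' => h.neg n hn q hq ((hxy n).2 q hq hq')⟩

theorem Dcd.subV_iff {p : P} {x y : α → RO P} {a b : Set α} (h : Dcd p x a) (h' : Dcd p y b) :
    p ∈ Pool.Agent.Helper38.FC.subV x y ↔ a ⊆ b := by
  rw [mem_subV]
  constructor
  · intro hs n hn
    exact (h'.mem_iff le_rfl n).1 (hs n p le_rfl (h.pos n hn))
  · intro hs n q hq hn
    exact (h'.mem_iff hq n).2 (hs ((h.mem_iff hq n).1 hn))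

/-- the canonical name of an actual set -/
def chk (a : Set α) : α → RO P := fun n => tv (n ∈ a)

theorem Dcd_chk {p : P} {a : Set α} : Dcd p (chk a) a :=
  ⟨fun _ hn => mem_tv.2 hn, fun _ hn _ _ h => hn (mem_tv.1 h)⟩

end General

variable {Ω : Type} [LinearOrder Ω] [OrderBot Ω] [IsOm1 Ω] {α : Type}

/-- names for subsets of a countable set are decided by extensions -/
theorem exists_Dcd [Countable α] (p : Cond Ω) (x : α → RO (Cond Ω)) :
    ∃ q ≤ p, ∃ a : Set α, Dcd q x a := by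
  classical
  by_cases hα : Nonempty α
  swap
  · exact ⟨p, le_rfl, ∅, fun n => absurd ⟨n⟩ hα, fun n => absurd ⟨n⟩ hα⟩
  obtain ⟨f, hf⟩ := exists_surjective_nat α
  have step : ∀ (n : ℕ) (r : Cond Ω), ∃ r' ≤ r, r' ∈ x (f n) ∨ r' ∈ (x (f n))ᶜ := by
    intro n r
    by_cases h : ∃ r' ≤ r, r' ∈ x (f n)
    · obtain ⟨r', h1, h2⟩ := h
      exact ⟨r', h1, Or.inl h2⟩
    · refine ⟨r, le_rfl, Or.inr ?_⟩
      rw [RO.mem_compl]
      exact fun q hq hq' => h ⟨q, hq, hq'⟩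
  choose F hF1 hF2 using step
  let r : ℕ → Cond Ω := fun n => Nat.rec p (fun n r => F n r) n
  have hr : ∀ n, r (n + 1) ≤ r n := fun n => hF1 n (r n)
  obtain ⟨q, hq, _⟩ := exists_lower r hr
  refine ⟨q, hq 0, {a | q ∈ x a}, fun n hn => hn, fun n hn q' hq' h => ?_⟩
  obtain ⟨m, rfl⟩ := hf n
  rcases hF2 m (r m) with h1 | h1
  · exact hn (mem_lower (hq (m + 1)) h1)
  · rw [RO.mem_compl] at h1
    exact h1 q' (hq'.trans (hq (m + 1))) h

/-- the name of the generic ultrafilter -/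
def UU (x : ℕ → RO (Cond Ω)) : RO (Cond Ω) := gen {r | ∃ a, Dcd r x a ∧ InV r a}

theorem mem_UU {p : Cond Ω} {x : ℕ → RO (Cond Ω)} :
    p ∈ UU x ↔ ∀ q ≤ p, ∃ r ≤ q, ∃ a, Dcd r x a ∧ InV r a := by
  unfold UU
  rw [mem_gen]
  constructor
  · intro h q hq
    obtain ⟨r, hr, s, ⟨a, h1, h2⟩, hrs⟩ := h q hq
    exact ⟨r, hr, a, h1.le hrs, h2.le hrs⟩
  · intro h q hq
    obtain ⟨r, hr, a, h1, h2⟩ := h q hq
    exact ⟨r, hr, r, ⟨a, h1, h2⟩, le_rfl⟩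

theorem UU_of {p : Cond Ω} {x : ℕ → RO (Cond Ω)} {a : Set ℕ} (h : Dcd p x a) (h' : InV p a) :
    p ∈ UU x := mem_UU.2 fun q hq => ⟨q, le_rfl, a, h.le hq, h'.le hq⟩

/-- a member of the ultrafilter which is decided is forced into it below a further condition -/
theorem UU_InV {p : Cond Ω} {x : ℕ → RO (Cond Ω)} {a : Set ℕ} (h : p ∈ UU x) (h' : Dcd p x a) :
    ∀ q ≤ p, ∃ r ≤ q, InV r a := by
  intro q hq
  obtain ⟨r, hr, b, h1, h2⟩ := mem_UU.1 h q hq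
  rw [← h1.uniq (h'.le (hr.trans hq))]
  exact ⟨r, hr, h2⟩

theorem UU_iff {p : Cond Ω} {x : ℕ → RO (Cond Ω)} {a : Set ℕ} (h : Dcd p x a) :
    p ∈ UU x ↔ ∀ q ≤ p, ∃ r ≤ q, InV r a :=
  ⟨fun h' => UU_InV h' h, fun h' => mem_UU.2 fun q hq => by
    obtain ⟨r, hr, h1⟩ := h' q hq
    exact ⟨r, hr, a, h.le (hr.trans hq), h1⟩⟩

theorem UU_ext {p : Cond Ω} {x y : ℕ → RO (Cond Ω)} (h : p ∈ eqV x y) (h' : p ∈ UU x) :
    p ∈ UU y := by
  rw [mem_UU] at h' ⊢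
  intro q hq
  obtain ⟨r, hr, a, h1, h2⟩ := h' q hq
  exact ⟨r, hr, a, h1.of_eqV (mem_lower (hr.trans hq) h), h2⟩

theorem UU_isSetName : IsSetName (UU (Ω := Ω)) :=
  fun _ _ _ hp => UU_ext hp.1 hp.2

end Pool.Agent.Helper38.FC
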