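import Mathlib

/-!
# A third order sentence and its value in a complete Boolean algebra

For a complete Boolean algebra `B` a `B`-name for a subset of a set `α` is a function `x : α → B`
(`x a` is the value of `a ∈ x`), a `B`-name for a family of subsets of `α` is an extensional
function `(α → B) → B`, and a `B`-name for a map from subsets of `α` to subsets of `β` is an
extensional function `(α → B) → (β → B)`. For `B = Prop` these are the actual objects and the value
of a sentence is its truth.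
-/

set_option autoImplicit false

namespace Pool.Agent.Helper38.FC

universe u

section Defs

variable {B : Type u} [CompleteBooleanAlgebra B] {α β : Type}

/-- The value of a fact `p` about actual objects. -/
def tv (p : Prop) : B := ⨆ _ : p, ⊤

/-- The value of: `x = y`. -/
def eqV (x y : α → B) : B := ⨅ a, (x a ⇨ y a) ⊓ (y a ⇨ x a)

/-- The value of: `x ⊆ y`. -/
def subV (x y : α → B) : B := ⨅ a, x a ⇨ y a

/-- The value of: `x ⊇ y`, i.e. `x` is below `y` for reverse inclusion. -/
def supV (x y : α → B) : B := subV y x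

/-- The value of: the set `g` of pairs is a function from `ℕ` to `ℕ`. -/
def fnV (g : ℕ × ℕ → B) : B :=
  (⨅ n : ℕ, ⨆ k : ℕ, g (n, k)) ⊓
    ⨅ n : ℕ, ⨅ k : ℕ, ⨅ l : ℕ, (g (n, k) ⊓ g (n, l)) ⇨ tv (k = l)

/-- The value of: `g(n) ≤ h(n)` for all `n`. -/
def leF (g h : ℕ × ℕ → B) : B :=
  ⨅ n : ℕ, ⨅ k : ℕ, ⨅ l : ℕ, (g (n, k) ⊓ h (n, l)) ⇨ tv (k ≤ l)

/-- `E` is a name of a family of subsets of `α`. -/
def IsSetName (E : (α → B) → B) : Prop := ∀ x y : α → B, eqV x y ⊓ E x ≤ E y

/-- `F` is a name of a map from subsets of `α` to subsets of `β`. -/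
def IsMapName (F : (α → B) → (β → B)) : Prop := ∀ x y : α → B, eqV x y ≤ eqV (F x) (F y)

/-- The value of: the family `D` of subsets of `α`, ordered by `leD`, is Tukey reducible to the
family `E` of subsets of `β`, ordered by `leE`; i.e. there is a map `F` from `D` to `E` such that
for every `b` in `E` there is `c` in `D` with `x ≤ c` for all `x` in `D` with `F x ≤ b`. -/
def tukeyV (D : (α → B) → B) (leD : (α → B) → (α → B) → B) (E : (β → B) → B)
    (leE : (β → B) → (β → B) → B) : B :=
  ⨆ F : (α → B) → (β → B), ⨆ _ : IsMapName F,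
    (⨅ x, D x ⇨ E (F x)) ⊓ ⨅ b, E b ⇨ ⨆ c, D c ⊓ ⨅ x, (D x ⊓ leE (F x) b) ⇨ leD x c

/-- The value of: `U` is an ultrafilter on `ℕ`. -/
def ultraV (U : (ℕ → B) → B) : B :=
  U (fun _ => ⊤) ⊓ (U (fun _ => ⊥))ᶜ ⊓ (⨅ x, ⨅ y, (U x ⊓ subV x y) ⇨ U y) ⊓
    (⨅ x, ⨅ y, (U x ⊓ U y) ⇨ U (fun n => x n ⊓ y n)) ⊓ ⨅ x, U x ⊔ U (fun n => (x n)ᶜ)

/-- The value of: `A` belongs to the Fubini square of `U`. -/
def sqV (U : (ℕ → B) → B) (A : ℕ × ℕ → B) : B := U (fun n => U (fun m => A (n, m)))

end Defs

/-- The value in `B` of the sentence: there is an ultrafilter `U` on `ℕ` such that the set of all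
functions from `ℕ` to `ℕ` (with the pointwise order) is Tukey reducible to `U`, and `U` is Tukey
reducible to its Fubini square, but the Fubini square of `U` is not Tukey reducible to `U`
(ultrafilters are ordered by reverse inclusion). -/
def Val (B : Type u) [CompleteBooleanAlgebra B] : B :=
  ⨆ U : (ℕ → B) → B, ⨆ _ : IsSetName U,
    ultraV U ⊓ tukeyV fnV leF U supV ⊓ tukeyV U supV (sqV U) supV ⊓
      (tukeyV (sqV U) supV U supV)ᶜ

end Pool.Agent.Helper38.FC
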